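import Mathlib

set_option autoImplicit false

namespace Pool.Agent.H.MP_cb5d7d_al

section Cover
variable {H : Type*} [Group H]

/-- nonempty products of gaps -/
inductive Pr (y : ℤ → H) : H → Prop
  | gap (i : ℤ) : Pr y ((y i)⁻¹ * y (i + 1))
  | mul {u v : H} : Pr y u → Pr y v → Pr y (u * v)

def Lt (y : ℤ → H) (u v : H) : Prop := Pr y (u⁻¹ * v)
def Le (y : ℤ → H) (u v : H) : Prop := u = v ∨ Pr y (u⁻¹ * v)

variable {y : ℤ → H}

lemma Lt.trans {u v w : H} (h1 : Lt y u v) (h2 : Lt y v w) : Lt y u w := by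
  have := Pr.mul h1 h2
  unfold Lt
  simpa [mul_assoc] using this

lemma Le.trans_lt {u v w : H} (h1 : Le y u v) (h2 : Lt y v w) : Lt y u w := by
  rcases h1 with rfl | h1
  · exact h2
  · exact Lt.trans h1 h2

lemma Lt.trans_le {u v w : H} (h1 : Lt y u v) (h2 : Le y v w) : Lt y u w := by
  rcases h2 with rfl | h2
  · exact h1
  · exact Lt.trans h1 h2

lemma Le.trans {u v w : H} (h1 : Le y u v) (h2 : Le y v w) : Le y u w := by
  rcases h2 with rfl | h2
  · exact h1
  · exact Or.inr (Le.trans_lt h1 h2)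

lemma Lt.mul_left {u v : H} (g : H) (h : Lt y u v) : Lt y (g * u) (g * v) := by
  unfold Lt at *
  simpa [mul_assoc] using h

lemma Le.mul_left {u v : H} (g : H) (h : Le y u v) : Le y (g * u) (g * v) := by
  rcases h with rfl | h
  · exact Or.inl rfl
  · exact Or.inr (Lt.mul_left g h)

lemma le_y {m m' : ℤ} (h : m ≤ m') : Le y (y m) (y m') := by
  induction m', h using Int.leInduction with
  | base => exact Or.inl rfl
  | succ k _ ih => exact Le.trans ih (Or.inr (Pr.gap k))

lemma y_mul {n : ℤ} {t : H} (hy : ∀ m, y (m + n) = t * y m) (m k : ℤ) :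
    y (m + k * n) = t ^ k * y m := by
  induction k using Int.induction_on with
  | zero => simp
  | succ k ih =>
    have : m + ((k : ℤ) + 1) * n = (m + k * n) + n := by ring
    rw [this, hy, ih, add_comm (k : ℤ) 1, zpow_add, zpow_one, mul_assoc]
  | pred k ih =>
    have h1 : m + (-(k : ℤ)) * n = (m + (-(k : ℤ) - 1) * n) + n := by ring
    rw [h1, hy] at ih
    have h2 : (-(k : ℤ) - 1) = -1 + -(k : ℤ) := by ring
    calc y (m + (-(k : ℤ) - 1) * n) = t⁻¹ * (t * y (m + (-(k : ℤ) - 1) * n)) := by group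
      _ = t⁻¹ * (t ^ (-(k : ℤ)) * y m) := by rw [ih]
      _ = t ^ (-(k : ℤ) - 1) * y m := by rw [h2, zpow_add, zpow_neg_one, mul_assoc]

inductive Red {ι : Type} (l : ι → H) (inv : ι → ι) (t : H) : H → Option ι → Prop
  | base (k : ℤ) : Red l inv t (t ^ k) none
  | step {w : H} {o : Option ι} (s : ι) : Red l inv t w o → o ≠ some (inv s) →
      Red l inv t (l s * w) (some s)

theorem cover {ι : Type} (n : ℤ) (hn : 0 < n) (t : H) (hy : ∀ m, y (m + n) = t * y m)
    (hy0 : y 0 = 1) (l : ι → H) (inv : ι → ι) (hinv : ∀ s, l (inv s) = (l s)⁻¹)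
    (ht : ∀ s, Commute t (l s)) (I J : ι → ℤ)
    (h1 : ∀ s, l s * y (J s) = y (I s)) (h2 : ∀ s, l s * y (J s + n - 1) = y (I s + 1))
    (h3 : ∀ s s', n ∣ I s' - (J s - 1) → s' = inv s) (h4 : ∀ s, ¬ n ∣ (J s - 1))
    (w : H) (hw : w ∈ Subgroup.closure (Set.range l ∪ {t})) :
    ∃ m, Le y (y m) w ∧ Lt y w (y (m + 1)) := by
  classical
  have cell : ∀ w o, Red l inv t w o →
      ∃ m, Le y (y m) w ∧ Lt y w (y (m + 1)) ∧ n ∣ m - (o.elim 0 I) := by
    intro w o h
    induction h with
    | base k =>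
      refine ⟨0 + k * n, Or.inl ?_, ?_, by simp⟩
      · rw [y_mul hy, hy0, mul_one]
      · have : t ^ k = y (0 + k * n) := by rw [y_mul hy, hy0, mul_one]
        rw [this]
        exact Pr.gap _
    | @step w o s _ ho ih =>
      obtain ⟨m, hle, hlt, hd⟩ := ih
      have hnd : ¬ n ∣ m - (J s - 1) := by
        intro hc
        have h5 : n ∣ (o.elim 0 I) - (J s - 1) := by
          have := dvd_sub hc hd
          rwa [sub_sub_sub_cancel_left] at this
        cases o with
        | none =>
          apply h4 s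
          have := (dvd_neg.mpr h5)
          simpa using this
        | some s' => exact ho (by rw [h3 s s' h5])
      set k := (m - J s) / n with hk
      set r := (m - J s) % n with hr
      have e1 : n * k + r = m - J s := Int.mul_ediv_add_emod _ _
      have r0 : 0 ≤ r := Int.emod_nonneg _ hn.ne'
      have r1 : r < n := Int.emod_lt_of_pos _ hn
      have r2 : r ≠ n - 1 := by
        intro h
        apply hnd
        exact ⟨k + 1, by linarith⟩
      have hc : ∀ u, l s * (t ^ k * u) = t ^ k * (l s * u) := by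
        intro u
        rw [← mul_assoc, ← mul_assoc, ((ht s).zpow_left k).eq]
      refine ⟨I s + k * n, ?_, ?_, ⟨k, by simp [mul_comm]⟩⟩
      · have a1 : Le y (y (J s + k * n)) w := Le.trans (le_y (by linarith)) hle
        have a2 := Le.mul_left (l s) a1
        rw [y_mul hy, hc, h1, ← y_mul hy] at a2
        exact a2
      · have a1 : Lt y w (y ((J s + n - 1) + k * n)) :=
          Lt.trans_le hlt (le_y (by
            have : r + 1 ≤ n - 1 := by omega
            linarith))
        have a2 := Lt.mul_left (l s) a1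
        rw [y_mul hy, hc, h2, ← y_mul hy] at a2
        have e : I s + k * n + 1 = I s + 1 + k * n := by ring
        rw [e]
        exact a2
  have cl1 : ∀ s w o, Red l inv t w o → ∃ o', Red l inv t (l s * w) o' := by
    intro s w o h
    by_cases ho : o = some (inv s)
    · subst ho
      cases h with
      | @step w' o' _ h' _ =>
        refine ⟨o', ?_⟩
        rw [hinv, mul_inv_cancel_left]
        exact h'
    · exact ⟨_, Red.step s h ho⟩
  have cl2 : ∀ (j : ℤ) w o, Red l inv t w o → Red l inv t (t ^ j * w) o := by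
    intro j w o h
    induction h with
    | base k => rw [← zpow_add]; exact Red.base _
    | @step w o s _ ho ih =>
      rw [← mul_assoc, ((ht s).zpow_left j).eq, mul_assoc]
      exact Red.step s ih ho
  have all : ∀ g ∈ Subgroup.closure (Set.range l ∪ {t}), ∀ w o, Red l inv t w o →
      ∃ o', Red l inv t (g * w) o' := by
    intro g hg
    induction hg using Subgroup.closure_induction'' with
    | mem x hx =>
      rcases hx with ⟨s, rfl⟩ | hx
      · exact cl1 s
      · intro w o h
        rw [Set.mem_singleton_iff.mp hx]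
        exact ⟨o, by simpa using cl2 1 w o h⟩
    | inv_mem x hx =>
      rcases hx with ⟨s, rfl⟩ | hx
      · rw [← hinv]; exact cl1 _
      · intro w o h
        rw [Set.mem_singleton_iff.mp hx]
        exact ⟨o, by simpa using cl2 (-1) w o h⟩
    | one => intro w o h; exact ⟨o, by simpa using h⟩
    | mul a b _ _ ha hb =>
      intro w o h
      obtain ⟨o', h'⟩ := hb w o h
      rw [mul_assoc]
      exact ha _ _ h'
  obtain ⟨o, h⟩ := all w hw _ _ (Red.base 0)
  obtain ⟨m, a, b, _⟩ := cell _ _ h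
  exact ⟨m, by simpa using a, by simpa using b⟩

lemma cell_tri (hy0 : y 0 = 1) {w : H} {m : ℤ} (a : Le y (y m) w) (b : Lt y w (y (m + 1))) :
    w = 1 ∨ Pr y w ∨ Pr y w⁻¹ := by
  rcases le_or_gt 0 m with h | h
  · have := Le.trans (le_y h) a
    rw [hy0] at this
    rcases this with h | h
    · exact Or.inl h.symm
    · exact Or.inr (Or.inl (by simpa using h))
  · have := Lt.trans_le b (le_y (show m + 1 ≤ 0 by omega))
    rw [hy0] at this
    exact Or.inr (Or.inr (by simpa [Lt] using this))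

lemma cell_floor {n : ℤ} (hn : 0 < n) {t : H} (hy : ∀ m, y (m + n) = t * y m) (hy0 : y 0 = 1)
    {w : H} {m : ℤ} (a : Le y (y m) w) (b : Lt y w (y (m + 1))) :
    ∃ k : ℤ, Le y (t ^ k) w ∧ Lt y w (t ^ (k + 1)) := by
  have e1 : n * (m / n) + m % n = m := Int.mul_ediv_add_emod _ _
  have r0 : 0 ≤ m % n := Int.emod_nonneg _ hn.ne'
  have r1 : m % n < n := Int.emod_lt_of_pos _ hn
  have ht : ∀ k : ℤ, t ^ k = y (0 + k * n) := by
    intro k; rw [y_mul hy, hy0, mul_one]
  refine ⟨m / n, ?_, ?_⟩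
  · rw [ht]; exact Le.trans (le_y (by linarith)) a
  · rw [ht]; exact Lt.trans_le b (le_y (by nlinarith))

/-- periodic extension -/
def yy (n : ℤ) (t : H) (v : ℕ → H) (m : ℤ) : H := t ^ (m / n) * v (m % n).toNat

lemma yy_add {n : ℤ} (hn : 0 < n) (t : H) (v : ℕ → H) (m : ℤ) :
    yy n t v (m + n) = t * yy n t v m := by
  unfold yy
  rw [Int.add_ediv_of_dvd_right (dvd_refl n), Int.ediv_self hn.ne', Int.add_emod_right,
    add_comm, zpow_add, zpow_one, mul_assoc]

end Cover

/-- increasing permutations of the rationals commuting with the unit translation -/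
def W : Subgroup (Equiv.Perm ℚ) where
  carrier := {e | StrictMono e ∧ ∀ x, e (x + 1) = e x + 1}
  one_mem' := ⟨strictMono_id, fun _ => rfl⟩
  mul_mem' := by
    rintro a b ⟨a1, a2⟩ ⟨b1, b2⟩
    refine ⟨a1.comp b1, fun x => ?_⟩
    simp only [Equiv.Perm.mul_apply, b2, a2]
  inv_mem' := by
    rintro a ⟨a1, a2⟩
    refine ⟨fun x y h => ?_, fun x => ?_⟩
    · rw [← a1.lt_iff_lt]; simpa using h
    · apply a.injective
      rw [a2]; simp

lemma exists_W0 (p q : ℚ) (p0 : 0 < p) (p1 : p < 1) (q0 : 0 < q) (q1 : q < 1) :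
    ∃ e : W, e.1 0 = 0 ∧ e.1 p = q := by
  let φ : ℚ → ℚ := fun r => if r ≤ p then r * (q / p) else q + (r - p) * ((1 - q) / (1 - p))
  have s1 : 0 < q / p := div_pos q0 p0
  have s2 : 0 < (1 - q) / (1 - p) := div_pos (by linarith) (by linarith)
  have e1 : p * (q / p) = q := by field_simp
  have e2 : (1 - p) * ((1 - q) / (1 - p)) = 1 - q := by
    have : (1 - p) ≠ 0 := by linarith
    field_simp
  have hφ : StrictMono φ := by
    intro x x' h
    simp only [φ]
    split_ifs with h1 h2 h2
    · nlinarith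
    · push Not at h2; nlinarith
    · linarith
    · nlinarith
  have φ0 : φ 0 = 0 := by simp [φ, p0.le]
  have φ1 : φ 1 = 1 := by
    simp only [φ, if_neg (not_le.mpr p1)]; linarith
  have φp : φ p = q := by simp only [φ, if_pos le_rfl]; exact e1
  have φs : ∀ s, ∃ r, φ r = s := by
    intro s
    by_cases h : s ≤ q
    · refine ⟨s / (q / p), ?_⟩
      have : s / (q / p) ≤ p := by rw [div_le_iff₀ s1]; linarith
      simp only [φ, if_pos this]
      field_simp
    · refine ⟨p + (s - q) / ((1 - q) / (1 - p)), ?_⟩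
      have : ¬ p + (s - q) / ((1 - q) / (1 - p)) ≤ p := by
        have := div_pos (show 0 < s - q by linarith) s2
        linarith
      simp only [φ, if_neg this]
      rw [add_sub_cancel_left, div_mul_cancel₀ _ s2.ne']
      ring
  let F : ℚ → ℚ := fun x => ⌊x⌋ + φ (Int.fract x)
  have b0 : ∀ x : ℚ, 0 ≤ φ (Int.fract x) := fun x => φ0 ▸ hφ.monotone (Int.fract_nonneg x)
  have b1 : ∀ x : ℚ, φ (Int.fract x) < 1 := fun x => φ1 ▸ hφ (Int.fract_lt_one x)
  have hF : StrictMono F := by
    intro x x' h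
    simp only [F]
    rcases (Int.floor_mono h.le).eq_or_lt with h1 | h1
    · have : Int.fract x < Int.fract x' := by
        unfold Int.fract; rw [h1]; linarith
      have := hφ this
      rw [h1]; linarith
    · have : ((⌊x⌋ : ℤ) : ℚ) + 1 ≤ ⌊x'⌋ := by exact_mod_cast h1
      linarith [b0 x', b1 x]
  have Fs : Function.Surjective F := by
    intro s
    obtain ⟨r, hr⟩ := φs (Int.fract s)
    have r0 : 0 ≤ r := by
      rw [← hφ.le_iff_le, φ0, hr]; exact Int.fract_nonneg s
    have r1 : r < 1 := by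
      rw [← hφ.lt_iff_lt, φ1, hr]; exact Int.fract_lt_one s
    refine ⟨⌊s⌋ + r, ?_⟩
    have f1 : ⌊(⌊s⌋ : ℚ) + r⌋ = ⌊s⌋ := by
      rw [Int.floor_intCast_add, Int.floor_eq_zero_iff.mpr ⟨r0, r1⟩, add_zero]
    have f2 : Int.fract ((⌊s⌋ : ℚ) + r) = r := by
      rw [Int.fract_intCast_add, Int.fract_eq_self.mpr ⟨r0, r1⟩]
    simp only [F, f1, f2, hr]
    exact Int.floor_add_fract s
  refine ⟨⟨Equiv.ofBijective F ⟨hF.injective, Fs⟩, hF, fun x => ?_⟩, ?_, ?_⟩
  · simp only [Equiv.ofBijective_apply, F, Int.floor_add_one, Int.fract_add_one]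
    push_cast; ring
  · simp [F, φ0]
  · simp only [Equiv.ofBijective_apply, F]
    rw [Int.floor_eq_zero_iff.mpr ⟨p0.le, p1⟩, Int.fract_eq_self.mpr ⟨p0.le, p1⟩, φp]
    simp

/-- translation -/
def tr (u : ℚ) : W := ⟨Equiv.addRight u, fun x y h => by simpa using h, fun x => by
  simp only [Equiv.coe_addRight]; ring⟩

@[simp] lemma tr_apply (u x : ℚ) : (tr u).1 x = x + u := rfl

lemma exists_W (u u' v v' : ℚ) (h1 : u < u') (h2 : u' < u + 1) (h3 : v < v') (h4 : v' < v + 1) :
    ∃ e : W, e.1 u = v ∧ e.1 u' = v' := by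
  obtain ⟨e, e0, e1⟩ := exists_W0 (u' - u) (v' - v) (by linarith) (by linarith) (by linarith)
    (by linarith)
  refine ⟨tr v * e * tr (-u), ?_, ?_⟩
  · simp [e0]
  · simp only [Subgroup.coe_mul, Equiv.Perm.mul_apply, tr_apply]
    rw [← sub_eq_add_neg, e1]; ring

lemma W_add_int (e : W) (x : ℚ) (k : ℤ) : e.1 (x + k) = e.1 x + k := by
  induction k using Int.induction_on with
  | zero => simp
  | succ k ih =>
    push_cast at ih ⊢
    rw [← add_assoc, e.2.2, ih]; ring
  | pred k ih =>
    have := e.2.2 (x + ((-(k : ℤ) - 1 : ℤ) : ℚ))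
    push_cast at ih this ⊢
    rw [show x + (-(k : ℚ) - 1) + 1 = x + -(k : ℚ) by ring, ih] at this
    linarith

lemma tr_comm (e : W) : Commute (tr 1) e := by
  apply Subtype.ext
  ext x
  simp [e.2.2]

lemma tr_zpow (k : ℤ) (x : ℚ) : ((tr 1 ^ k : W) : Equiv.Perm ℚ) x = x + k := by
  induction k using Int.induction_on generalizing x with
  | zero => simp
  | succ k ih =>
    rw [zpow_add_one, Subgroup.coe_mul, Equiv.Perm.mul_apply, ih]; push_cast; simp; ring
  | pred k ih =>
    have h : (tr 1 : W)⁻¹ = tr (-1) := by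
      rw [inv_eq_iff_mul_eq_one]
      apply Subtype.ext
      ext x
      simp
    rw [zpow_sub_one, h, Subgroup.coe_mul, Equiv.Perm.mul_apply, ih]; push_cast; simp; ring

lemma W_inv_apply (e : W) {x y : ℚ} (h : e.1 x = y) : (e⁻¹ : W).1 y = x := by
  rw [← h]; simp

end Pool.Agent.H.MP_cb5d7d_al
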