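import Pool.Agent.H.MP_cb5d7d_al.A

set_option autoImplicit false

namespace Pool.Agent.H.MP_cb5d7d_al

open SemidirectProduct

abbrev S0 := FreeGroup (Fin 4) × Multiplicative ℤ

def X (i : Fin 4) : S0 := (FreeGroup.of i, 1)
def T0 : S0 := (1, Multiplicative.ofAdd 1)

lemma T0_comm (s : S0) : Commute s T0 := by
  apply Prod.ext
  · simp [T0]
  · simp [T0, mul_comm]

def mk {K : Type} [Group K] (f : Fin 4 → K) (τ : K) (hc : ∀ i, Commute (f i) τ) : S0 →* K :=
  MonoidHom.noncommCoprod (FreeGroup.lift f) (zpowersHom K τ) (by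
    intro m n
    rw [zpowersHom_apply]
    apply Commute.zpow_right
    induction m using FreeGroup.induction_on with
    | C1 => simp
    | of i => simpa using hc i
    | inv_of i h => simpa using h
    | mul u v h1 h2 => rw [map_mul]; exact h1.mul_left h2)

@[simp] lemma mk_X {K : Type} [Group K] (f : Fin 4 → K) (τ : K) (hc : ∀ i, Commute (f i) τ)
    (i : Fin 4) : mk f τ hc (X i) = f i := by
  simp [mk, X]

@[simp] lemma mk_T {K : Type} [Group K] (f : Fin 4 → K) (τ : K) (hc : ∀ i, Commute (f i) τ) :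
    mk f τ hc T0 = τ := by
  simp [mk, T0]

lemma T0_zpow (k : Multiplicative ℤ) : T0 ^ (Multiplicative.toAdd k) = (1, k) := by
  apply Prod.ext
  · simp [T0]
  · simp [T0, ← ofAdd_zsmul]

lemma S0_ind (P : Subgroup S0) (h1 : ∀ i, X i ∈ P) (h2 : T0 ∈ P) (s : S0) : s ∈ P := by
  obtain ⟨w, k⟩ := s
  have a1 : ((w, 1) : S0) ∈ P := by
    induction w using FreeGroup.induction_on with
    | C1 => exact P.one_mem
    | of i => exact h1 i
    | inv_of i h => simpa using P.inv_mem h
    | mul u v h1 h2 => simpa using P.mul_mem h1 h2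
  have a2 : ((1, k) : S0) ∈ P := T0_zpow k ▸ P.zpow_mem h2 _
  simpa using P.mul_mem a1 a2

lemma S0_ext {K : Type} [Group K] {f g : S0 →* K} (h1 : ∀ i, f (X i) = g (X i))
    (h2 : f T0 = g T0) : f = g :=
  MonoidHom.ext fun s => S0_ind (f.eqLocus g) h1 h2 s

def endo (f : Fin 4 → S0) : S0 →* S0 := mk f T0 (fun _ => T0_comm _)

@[simp] lemma endo_X (f : Fin 4 → S0) (i : Fin 4) : endo f (X i) = f i := mk_X _ _ _ _
@[simp] lemma endo_T (f : Fin 4 → S0) : endo f T0 = T0 := mk_T _ _ _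

def autA : MulAut S0 :=
  MonoidHom.toMulEquiv (endo ![X 0 * T0, X 1, X 2, X 3]) (endo ![X 0 * T0⁻¹, X 1, X 2, X 3])
    (S0_ext (fun i => by fin_cases i <;> simp) (by simp))
    (S0_ext (fun i => by fin_cases i <;> simp) (by simp))

def autB : MulAut S0 :=
  MonoidHom.toMulEquiv (endo ![X 0, X 1 * X 0, X 2, X 3]) (endo ![X 0, X 1 * (X 0)⁻¹, X 2, X 3])
    (S0_ext (fun i => by fin_cases i <;> simp) (by simp))
    (S0_ext (fun i => by fin_cases i <;> simp) (by simp))

def φ : FreeGroup (Fin 2) →* MulAut S0 := FreeGroup.lift ![autA, autB]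

abbrev G := S0 ⋊[φ] FreeGroup (Fin 2)

instance : Countable G :=
  Function.Injective.countable (f := fun g : G => (g.left, g.right)) (fun g h e => by
    simp only [Prod.mk.injEq] at e
    exact SemidirectProduct.ext e.1 e.2)

def x1 : G := inl (X 0)
def x2 : G := inl (X 1)
def x3 : G := inl (X 2)
def z : G := inl (X 3)
def t : G := inl T0
def a : G := inr (FreeGroup.of 0)
def b : G := inr (FreeGroup.of 1)

lemma conj_a (s : S0) : a * inl s * a⁻¹ = inl (endo ![X 0 * T0, X 1, X 2, X 3] s) := by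
  rw [a, ← map_inv, ← inl_aut]; simp [φ, autA]

lemma conj_b (s : S0) : b * inl s * b⁻¹ = inl (endo ![X 0, X 1 * X 0, X 2, X 3] s) := by
  rw [b, ← map_inv, ← inl_aut]; simp [φ, autB]

lemma comm_of {K : Type} [Group K] {u v : K} (h : u * v * u⁻¹ = v) : Commute u v := by
  rw [mul_inv_eq_iff_eq_mul] at h; exact h

lemma a_x1 : a * x1 * a⁻¹ = x1 * t := by rw [x1, conj_a]; simp [t]
lemma a_x2 : Commute a x2 := comm_of (by rw [x2, conj_a]; simp)
lemma a_x3 : Commute a x3 := comm_of (by rw [x3, conj_a]; simp)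
lemma a_z : Commute a z := comm_of (by rw [z, conj_a]; simp)
lemma a_t : Commute a t := comm_of (by rw [t, conj_a]; simp)
lemma b_x1 : Commute b x1 := comm_of (by rw [x1, conj_b]; simp)
lemma b_x2 : b * x2 * b⁻¹ = x2 * x1 := by rw [x2, conj_b]; simp [x1]
lemma b_x3 : Commute b x3 := comm_of (by rw [x3, conj_b]; simp)
lemma b_z : Commute b z := comm_of (by rw [z, conj_b]; simp)
lemma b_t : Commute b t := comm_of (by rw [t, conj_b]; simp)
lemma inl_t (s : S0) : Commute (inl s : G) t := (T0_comm s).map inl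

lemma inr_mem (P : Subgroup G) (ha : a ∈ P) (hb : b ∈ P) (f : FreeGroup (Fin 2)) :
    (inr f : G) ∈ P := by
  induction f using FreeGroup.induction_on with
  | C1 => simp
  | of i => fin_cases i; exact ha; exact hb
  | inv_of i h => rw [map_inv]; exact P.inv_mem h
  | mul u v h1 h2 => rw [map_mul]; exact P.mul_mem h1 h2

lemma inl_mem (P : Subgroup G) (h1 : x1 ∈ P) (h2 : x2 ∈ P) (h3 : x3 ∈ P) (hz : z ∈ P)
    (ht : t ∈ P) (s : S0) : (inl s : G) ∈ P :=
  S0_ind (P.comap inl) (fun i => by fin_cases i; exact h1; exact h2; exact h3; exact hz) ht s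

lemma G_ind (P : Subgroup G) (ha : a ∈ P) (hb : b ∈ P) (hz : z ∈ P) (h2 : x2 ∈ P)
    (h3 : x3 ∈ P) (g : G) : g ∈ P := by
  have h1 : x1 ∈ P := by
    have : x1 = x2⁻¹ * (b * x2 * b⁻¹) := by rw [b_x2]; group
    rw [this]
    exact P.mul_mem (P.inv_mem h2) (P.mul_mem (P.mul_mem hb h2) (P.inv_mem hb))
  have ht : t ∈ P := by
    have : t = x1⁻¹ * (a * x1 * a⁻¹) := by rw [a_x1]; group
    rw [this]
    exact P.mul_mem (P.inv_mem h1) (P.mul_mem (P.mul_mem ha h1) (P.inv_mem ha))
  rw [← inl_left_mul_inr_right g]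
  exact P.mul_mem (inl_mem P h1 h2 h3 hz ht _) (inr_mem P ha hb _)

lemma t_central (g : G) : Commute g t := by
  have hm : ∀ u : G, Commute u t → u ∈ Subgroup.centralizer {t} := by
    intro u h
    rw [Subgroup.mem_centralizer_iff]
    intro v hv
    rw [Set.mem_singleton_iff.mp hv]
    exact h.symm.eq
  have := G_ind (Subgroup.centralizer {t}) (hm _ a_t) (hm _ b_t) (hm _ (inl_t _))
    (hm _ (inl_t _)) (hm _ (inl_t _)) g
  rw [Subgroup.mem_centralizer_iff] at this
  exact (this t rfl).symm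

lemma G_lift {K : Type} [Group K] (A B Z X1 X2 X3 T : K)
    (r1 : A * X1 * A⁻¹ = X1 * T) (r2 : Commute A X2) (r3 : Commute A X3) (r4 : Commute A Z)
    (r5 : Commute A T) (r6 : Commute B X1) (r7 : B * X2 * B⁻¹ = X2 * X1) (r8 : Commute B X3)
    (r9 : Commute B Z) (r10 : Commute B T) (r11 : Commute X1 T) (r12 : Commute X2 T)
    (r13 : Commute X3 T) (r14 : Commute Z T) :
    ∃ ρ : G →* K, ρ a = A ∧ ρ b = B ∧ ρ z = Z ∧ ρ x1 = X1 ∧ ρ x2 = X2 ∧ ρ x3 = X3 ∧ ρ t = T := by
  let f1 : S0 →* K := mk ![X1, X2, X3, Z] T (fun i => by fin_cases i <;> simpa)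
  let f2 : FreeGroup (Fin 2) →* K := FreeGroup.lift ![A, B]
  have cc : ∀ {u v : K}, Commute u v → u * v * u⁻¹ = v := fun h => by rw [h.eq]; simp
  have key : ∀ g s, f1 (φ g s) = f2 g * f1 s * (f2 g)⁻¹ := by
    intro g
    induction g using FreeGroup.induction_on with
    | C1 => simp
    | of i =>
      have e : f1.comp (φ (FreeGroup.of i)).toMonoidHom =
          (MulAut.conj (f2 (FreeGroup.of i))).toMonoidHom.comp f1 := by
        fin_cases i
        · apply S0_ext
          · intro j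
            fin_cases j <;> simp [φ, autA, f1, f2, r1, cc r2, cc r3, cc r4]
          · simp [φ, autA, f1, f2, cc r5]
        · apply S0_ext
          · intro j
            fin_cases j <;> simp [φ, autB, f1, f2, r7, cc r6, cc r8, cc r9]
          · simp [φ, autB, f1, f2, cc r10]
      intro s
      simpa using DFunLike.congr_fun e s
    | inv_of i h =>
      intro s
      have := h (φ (FreeGroup.of i)⁻¹ s)
      rw [← MulAut.mul_apply, ← map_mul, mul_inv_cancel, map_one, MulAut.one_apply] at this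
      rw [this, map_inv f2]; group
    | mul u v h1 h2 =>
      intro s
      rw [map_mul, MulAut.mul_apply, h1, h2, map_mul]; group
  refine ⟨SemidirectProduct.lift f1 f2 (fun g => MonoidHom.ext fun s => by simpa using key g s),
    ?_, ?_, ?_, ?_, ?_, ?_, ?_⟩ <;>
  simp [a, b, z, x1, x2, x3, t, f1, f2]

def lam : G := a * b⁻¹ * a⁻¹ * b
def σ : G := z⁻¹ * lam

lemma lam_z : Commute lam z :=
  ((a_z.mul_left b_z.inv_left).mul_left a_z.inv_left).mul_left b_z

lemma lam_x3 : Commute lam x3 :=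
  ((a_x3.mul_left b_x3.inv_left).mul_left a_x3.inv_left).mul_left b_x3

lemma ai_x1 : a⁻¹ * x1 * a = x1 * t⁻¹ := by
  have h := a_x1
  have : x1 = a * x1 * a⁻¹ * t⁻¹ := by rw [h]; group
  calc a⁻¹ * x1 * a = a⁻¹ * (a * x1 * a⁻¹ * t⁻¹) * a := by rw [← this]
    _ = x1 * (a⁻¹ * (t⁻¹ * a)) := by group
    _ = x1 * t⁻¹ := by rw [← a_t.inv_right.eq]; group

lemma bi_x2 : b⁻¹ * x2 * b = x2 * x1⁻¹ := by
  have h := b_x2
  have : x2 = b * x2 * b⁻¹ * x1⁻¹ := by rw [h]; group
  calc b⁻¹ * x2 * b = b⁻¹ * (b * x2 * b⁻¹ * x1⁻¹) * b := by rw [← this]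
    _ = x2 * (b⁻¹ * (x1⁻¹ * b)) := by group
    _ = x2 * x1⁻¹ := by rw [← b_x1.inv_right.eq]; group

lemma cc {K : Type} [Group K] {u v : K} (h : Commute u v) : u * v * u⁻¹ = v := by
  rw [h.eq]; simp

lemma cc' {K : Type} [Group K] {u v : K} (h : Commute u v) : u⁻¹ * v * u = v := by
  rw [h.inv_left.eq]; simp

lemma lam_x1 : Commute lam x1 := by
  apply comm_of
  calc lam * x1 * lam⁻¹ = a * (b⁻¹ * (a⁻¹ * (b * x1 * b⁻¹) * a) * b) * a⁻¹ := by
        unfold lam; group
    _ = a * ((b⁻¹ * x1 * b) * (b⁻¹ * t⁻¹ * b)) * a⁻¹ := by rw [cc b_x1, ai_x1]; group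
    _ = (a * x1 * a⁻¹) * (a * t⁻¹ * a⁻¹) := by rw [cc' b_x1, cc' b_t.inv_right]; group
    _ = x1 := by rw [a_x1, cc a_t.inv_right]; group

lemma lam_x2 : lam * x2 * lam⁻¹ = x2 * t⁻¹ := by
  calc lam * x2 * lam⁻¹ = a * (b⁻¹ * (a⁻¹ * (b * x2 * b⁻¹) * a) * b) * a⁻¹ := by
        unfold lam; group
    _ = a * (b⁻¹ * ((a⁻¹ * x2 * a) * (a⁻¹ * x1 * a)) * b) * a⁻¹ := by rw [b_x2]; group
    _ = a * ((b⁻¹ * x2 * b) * (b⁻¹ * x1 * b) * (b⁻¹ * t⁻¹ * b)) * a⁻¹ := by
        rw [cc' a_x2, ai_x1]; group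
    _ = (a * x2 * a⁻¹) * (a * t⁻¹ * a⁻¹) := by rw [bi_x2, cc' b_x1, cc' b_t.inv_right]; group
    _ = x2 * t⁻¹ := by rw [cc a_x2, cc a_t.inv_right]

lemma lam_zpow_x2 (k : ℤ) : lam ^ k * x2 = x2 * t ^ (-k) * lam ^ k := by
  have h1 : lam * x2 = x2 * t⁻¹ * lam := by rw [← lam_x2]; group
  have h2 : SemiconjBy x2 (t⁻¹ * lam) lam := by
    unfold SemiconjBy; rw [h1, mul_assoc]
  have h3 := h2.zpow_right k
  unfold SemiconjBy at h3
  rw [← h3, ((t_central lam).symm.inv_left).mul_zpow, inv_zpow', mul_assoc]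

lemma σ_z : Commute σ z := (Commute.refl z).inv_left.mul_left lam_z
lemma σ_lam : Commute σ lam := lam_z.symm.inv_left.mul_left (Commute.refl _)

/-! ### the injective copy of the free group times the integers -/

def j : S0 →* G := mk ![x1, x2, x3, σ] t (fun _ => t_central _)

def M : Subgroup G where
  carrier := {g | ∀ s, (φ g.right s).1 = s.1}
  one_mem' := by intro s; simp
  mul_mem' := by
    intro g h hg hh s
    rw [mul_right, map_mul, MulAut.mul_apply, hg, hh]
  inv_mem' := by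
    intro g hg s
    have := hg (φ g⁻¹.right s)
    rw [← MulAut.mul_apply, ← map_mul, inv_right, mul_inv_cancel, map_one,
      MulAut.one_apply] at this
    rw [this, inv_right]

def κ : M →* FreeGroup (Fin 4) where
  toFun g := g.1.left.1
  map_one' := by simp
  map_mul' g h := by
    rw [Subgroup.coe_mul, mul_left, Prod.fst_mul, g.2]

lemma inl_M (s : S0) : (inl s : G) ∈ M := by intro s; simp

lemma lam_eq : lam = inr (FreeGroup.of 0 * (FreeGroup.of 1)⁻¹ * (FreeGroup.of 0)⁻¹ *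
    FreeGroup.of 1) := by
  simp [lam, a, b]

lemma lam_M : lam ∈ M := by
  have key : ∀ s : S0, (inl (φ lam.right s) : G) = lam * inl s * lam⁻¹ := by
    intro s
    rw [inl_aut, map_inv]
    have : (inr lam.right : G) = lam := by rw [lam_eq]; simp
    rw [this]
  have e : (MonoidHom.fst _ _).comp (φ lam.right).toMonoidHom =
      (MonoidHom.fst _ _ : S0 →* _) := by
    apply S0_ext
    · intro i
      have : ∀ u v : S0, lam * inl u * lam⁻¹ = inl v → v.1 = u.1 → (φ lam.right u).1 = u.1 := by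
        intro u v h1 h2
        rw [← key] at h1
        rw [inl_injective h1, h2]
      fin_cases i
      · exact this _ _ (cc lam_x1) rfl
      · exact this _ (X 1 * T0⁻¹) (lam_x2.trans (by simp [x2, t])) (by simp [T0])
      · exact this _ _ (cc lam_x3) rfl
      · exact this _ _ (cc lam_z) rfl
    · have h1 := cc (t_central lam)
      rw [t, ← key] at h1
      simp [inl_injective h1]
  intro s
  simpa using DFunLike.congr_fun e s

lemma j_X0 : j (X 0) = x1 := by simp [j]
lemma j_X1 : j (X 1) = x2 := by simp [j]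
lemma j_X2 : j (X 2) = x3 := by simp [j]
lemma j_X3 : j (X 3) = σ := by simp [j]
lemma j_T : j T0 = t := by simp [j]

lemma j_M (s : S0) : j s ∈ M :=
  S0_ind (M.comap j) (fun i => by
    fin_cases i <;> simp [j]
    · exact inl_M _
    · exact inl_M _
    · exact inl_M _
    · exact M.mul_mem (M.inv_mem (inl_M _)) lam_M)
    (by rw [Subgroup.mem_comap, j_T]; exact inl_M _) s

lemma j_inj (s : S0) (h : j s = 1) : s = 1 := by
  let ι : FreeGroup (Fin 4) →* FreeGroup (Fin 4) :=
    FreeGroup.lift ![FreeGroup.of 0, FreeGroup.of 1, FreeGroup.of 2, (FreeGroup.of 3)⁻¹]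
  have e : ι.comp (κ.comp (j.codRestrict M j_M)) = MonoidHom.fst _ _ := by
    apply S0_ext
    · intro i
      fin_cases i
      · show ι (j (X 0)).left.1 = _
        rw [j_X0]; simp [ι, x1, X]
      · show ι (j (X 1)).left.1 = _
        rw [j_X1]; simp [ι, x2, X]
      · show ι (j (X 2)).left.1 = _
        rw [j_X2]; simp [ι, x3, X]
      · show ι (j (X 3)).left.1 = _
        rw [j_X3]; simp [ι, σ, z, lam_eq, X]
    · show ι (j T0).left.1 = _
      rw [j_T]; simp [ι, t, T0]
  have h1 : s.1 = 1 := by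
    have := DFunLike.congr_fun e s
    simp only [MonoidHom.comp_apply, MonoidHom.coe_fst] at this
    have h2 : j.codRestrict M j_M s = 1 := Subtype.ext h
    rw [← this, h2, map_one, map_one]
  obtain ⟨w, k⟩ := s
  simp only at h1
  subst h1
  rw [← T0_zpow] at h ⊢
  rw [map_zpow] at h
  have h3 : j T0 = inl T0 := by simp [j, t]
  rw [h3, ← map_zpow] at h
  exact inl_injective (by rw [h, map_one])

end Pool.Agent.H.MP_cb5d7d_al
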