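import Pool.Agent.H.MP_cb5d7d_al.B

set_option autoImplicit false
set_option linter.unusedSimpArgs false

namespace Pool.Agent.H.MP_cb5d7d_al

open SemidirectProduct

section Gen2
variable {H : Type} [Group H]

def vS (α β γ η τ : H) : ℕ → H
  | 1 => α * τ⁻¹ * (β⁻¹ * (α⁻¹ * (β * τ⁻¹ * (γ * τ⁻¹ * (η⁻¹ * (γ⁻¹ * η))))))
  | 2 => β * τ⁻¹ * (γ * τ⁻¹ * (η⁻¹ * (γ⁻¹ * η)))
  | 3 => α⁻¹ * (β * τ⁻¹ * (γ * τ⁻¹ * (η⁻¹ * (γ⁻¹ * η))))
  | 4 => β⁻¹ * (α⁻¹ * (β * τ⁻¹ * (γ * τ⁻¹ * (η⁻¹ * (γ⁻¹ * η)))))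
  | 5 => γ * τ⁻¹ * (η⁻¹ * (γ⁻¹ * η))
  | 6 => η
  | 7 => γ⁻¹ * η
  | 8 => η⁻¹ * (γ⁻¹ * η)
  | _ => 1

lemma cover2 (α β γ η τ : H) (h1 : Commute τ α) (h2 : Commute τ β) (h3 : Commute τ γ)
    (h4 : Commute τ η) (w : H) (hw : w ∈ Subgroup.closure {α, β, γ, η, τ}) :
    ∃ m, Le (yy 9 τ (vS α β γ η τ)) (yy 9 τ (vS α β γ η τ) m) w ∧
      Lt (yy 9 τ (vS α β γ η τ)) w (yy 9 τ (vS α β γ η τ) (m + 1)) := by
  have c : ∀ {u : H}, Commute τ u → ∀ v, u⁻¹ * (τ * (u * τ⁻¹ * v)) = v := by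
    intro u h v
    rw [← mul_assoc τ, ← mul_assoc τ, h.eq]; group
  refine cover (ι := Fin 8) 9 (by norm_num) τ (yy_add (by norm_num) _ _) (by simp [yy, vS])
    ![α, β, γ, η, α⁻¹, β⁻¹, γ⁻¹, η⁻¹] ![4, 5, 6, 7, 0, 1, 2, 3] ?_ ?_
    ![1, 2, 5, 6, 3, 4, 7, 8] ![-5, -4, -1, 0, 2, 3, 6, 7] ?_ ?_ (by decide) (by decide) w ?_
  · intro s; fin_cases s <;> simp
  · intro s; fin_cases s <;> simp [h1, h2, h3, h4]
  · intro s; fin_cases s <;> simp [yy, vS, mul_assoc]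
  · intro s; fin_cases s
    · simp [yy, vS]
    · simp [yy, vS]
    · simp [yy, vS]
    · simp [yy, vS]
    · simpa [yy, vS] using c h1 _
    · simpa [yy, vS] using c h2 _
    · simpa [yy, vS] using c h3 _
    · simp [yy, vS, h4.eq]
  · refine Subgroup.closure_mono ?_ hw
    intro u hu
    simp only [Set.mem_insert_iff, Set.mem_singleton_iff] at hu
    rcases hu with rfl | rfl | rfl | rfl | rfl
    · exact Or.inl ⟨0, rfl⟩
    · exact Or.inl ⟨1, rfl⟩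
    · exact Or.inl ⟨2, rfl⟩
    · exact Or.inl ⟨3, rfl⟩
    · exact Or.inr rfl

lemma map_yy_vS {K : Type} [Group K] (f : H →* K) (α β γ η τ : H) (m : ℤ) :
    f (yy 9 τ (vS α β γ η τ) m) = yy 9 (f τ) (vS (f α) (f β) (f γ) (f η) (f τ)) m := by
  unfold yy
  rw [map_mul, map_zpow]
  congr 1
  generalize (m % 9).toNat = r
  unfold vS
  split <;> simp

end Gen2

def S : Subgroup G := Subgroup.closure {x1, x2, x3, σ, t}
def yS : ℤ → G := yy 9 t (vS x1 x2 x3 σ t)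

lemma x1_S : x1 ∈ S := Subgroup.subset_closure (by simp)
lemma x2_S : x2 ∈ S := Subgroup.subset_closure (by simp)
lemma x3_S : x3 ∈ S := Subgroup.subset_closure (by simp)
lemma σ_S : σ ∈ S := Subgroup.subset_closure (by simp)
lemma t_S : t ∈ S := Subgroup.subset_closure (by simp)

lemma yS_add (m : ℤ) : yS (m + 9) = t * yS m := yy_add (by norm_num) _ _ _
lemma yS_zero : yS 0 = 1 := by simp [yS, yy, vS]

lemma cellS {s : G} (hs : s ∈ S) : ∃ m, Le yS (yS m) s ∧ Lt yS s (yS (m + 1)) :=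
  cover2 _ _ _ _ _ (t_central _).symm (t_central _).symm (t_central _).symm (t_central _).symm s hs

lemma triS {s : G} (hs : s ∈ S) : s = 1 ∨ Pr yS s ∨ Pr yS s⁻¹ := by
  obtain ⟨m, h1, h2⟩ := cellS hs
  exact cell_tri yS_zero h1 h2

lemma floorS {s : G} (hs : s ∈ S) : ∃ k : ℤ, Le yS (t ^ k) s ∧ Lt yS s (t ^ (k + 1)) := by
  obtain ⟨m, h1, h2⟩ := cellS hs
  exact cell_floor (by norm_num) yS_add yS_zero h1 h2

lemma Pr_t : Pr yS t := by
  have h1 : Lt yS (yS 0) (yS (0 + 1)) := Pr.gap 0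
  have h2 := h1.trans_le (le_y (show (0 : ℤ) + 1 ≤ 0 + 9 by norm_num))
  rw [yS_add, yS_zero] at h2
  simpa [Lt] using h2

lemma j_S (s : S0) : j s ∈ S :=
  S0_ind (S.comap j) (fun i => by
    fin_cases i
    · show j (X 0) ∈ S
      rw [j_X0]; exact x1_S
    · show j (X 1) ∈ S
      rw [j_X1]; exact x2_S
    · show j (X 2) ∈ S
      rw [j_X2]; exact x3_S
    · show j (X 3) ∈ S
      rw [j_X3]; exact σ_S) (by rw [Subgroup.mem_comap, j_T]; exact t_S) s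

lemma yS_eq (m : ℤ) : yS m = j (yy 9 T0 (vS (X 0) (X 1) (X 2) (X 3) T0) m) := by
  rw [map_yy_vS, j_X0, j_X1, j_X2, j_X3, j_T]; rfl

lemma Pr_S {u : G} (h : Pr yS u) : u ∈ S := by
  induction h with
  | gap i => rw [yS_eq, yS_eq]; exact S.mul_mem (S.inv_mem (j_S _)) (j_S _)
  | mul _ _ h1 h2 => exact S.mul_mem h1 h2

lemma gap_periodic {H : Type} [Group H] {y : ℤ → H} {n : ℤ} {τ : H}
    (hy : ∀ m, y (m + n) = τ * y m) (i : ℤ) :
    (y i)⁻¹ * y (i + 1) = (y (i % n))⁻¹ * y (i % n + 1) := by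
  have e : i = i % n + (i / n) * n := by rw [mul_comm]; exact (Int.emod_add_mul_ediv i n).symm
  have e2 : i + 1 = (i % n + 1) + (i / n) * n := by linarith
  conv_lhs => rw [e2, y_mul hy, e, y_mul hy]
  rw [← e]; group

lemma not_Pr_one : ¬ Pr yS 1 := by
  obtain ⟨A, A1, A2⟩ := exists_W (-5 / 9) (3 / 9) (1 / 9) (2 / 9) (by norm_num) (by norm_num)
    (by norm_num) (by norm_num)
  obtain ⟨B, B1, B2⟩ := exists_W (-4 / 9) (4 / 9) (2 / 9) (3 / 9) (by norm_num) (by norm_num)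
    (by norm_num) (by norm_num)
  obtain ⟨C, C1, C2⟩ := exists_W (-1 / 9) (7 / 9) (5 / 9) (6 / 9) (by norm_num) (by norm_num)
    (by norm_num) (by norm_num)
  obtain ⟨E, E1, E2⟩ := exists_W 0 (8 / 9) (6 / 9) (7 / 9) (by norm_num) (by norm_num)
    (by norm_num) (by norm_num)
  let Θ : S0 →* W := mk ![A, B, C, E] (tr 1) (fun _ => (tr_comm _).symm)
  let y0 : ℤ → S0 := yy 9 T0 (vS (X 0) (X 1) (X 2) (X 3) T0)
  have ti : ∀ x, ((tr 1)⁻¹ : W).1 x = x - 1 := fun x => W_inv_apply _ (by simp)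
  have ma : ∀ (u v : W) (x : ℚ), (u * v : W).1 x = u.1 (v.1 x) := fun _ _ _ => rfl
  have v7 : (C⁻¹ * E : W).1 0 = 7 / 9 := by rw [ma, E1]; exact W_inv_apply _ C2
  have v8 : (E⁻¹ * (C⁻¹ * E) : W).1 0 = 8 / 9 := by rw [ma, v7]; exact W_inv_apply _ E2
  have v5 : (C * (tr 1)⁻¹ * (E⁻¹ * (C⁻¹ * E)) : W).1 0 = 5 / 9 := by
    rw [ma, v8, ma, ti, ← C1]; norm_num
  have v2 : (B * (tr 1)⁻¹ * (C * (tr 1)⁻¹ * (E⁻¹ * (C⁻¹ * E))) : W).1 0 = 2 / 9 := by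
    rw [ma, v5, ma, ti, ← B1]; norm_num
  have v3 : (A⁻¹ * (B * (tr 1)⁻¹ * (C * (tr 1)⁻¹ * (E⁻¹ * (C⁻¹ * E)))) : W).1 0 = 3 / 9 := by
    rw [ma, v2]; exact W_inv_apply _ A2
  have v4 : (B⁻¹ * (A⁻¹ * (B * (tr 1)⁻¹ * (C * (tr 1)⁻¹ * (E⁻¹ * (C⁻¹ * E))))) : W).1 0
      = 4 / 9 := by
    rw [ma, v3]; exact W_inv_apply _ B2
  have v1 : (A * (tr 1)⁻¹ * (B⁻¹ * (A⁻¹ * (B * (tr 1)⁻¹ * (C * (tr 1)⁻¹ *
      (E⁻¹ * (C⁻¹ * E)))))) : W).1 0 = 1 / 9 := by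
    rw [ma, v4, ma, ti, ← A1]; norm_num
  have val : ∀ m : ℤ, (Θ (y0 m)).1 0 = m / 9 := by
    intro m
    have e0 : Θ (y0 m) = yy 9 (tr 1) (vS A B C E (tr 1)) m := by
      simp only [y0]; rw [map_yy_vS]; simp [Θ]
    have e1 : ∀ r : ℕ, r < 9 → (vS A B C E (tr 1) r).1 0 = r / 9 := by
      intro r hr
      interval_cases r
      · simp [vS]
      · simpa [vS] using v1
      · simpa [vS] using v2
      · simpa [vS] using v3
      · simpa [vS] using v4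
      · simpa [vS] using v5
      · simpa [vS] using E1
      · simpa [vS] using v7
      · simpa [vS] using v8
    rw [e0, yy, ma, e1 _ (by omega), tr_zpow]
    have h1 : (((m % 9).toNat : ℕ) : ℤ) = m % 9 := Int.toNat_of_nonneg (by omega)
    have h2 : m = m % 9 + 9 * (m / 9) := by omega
    have h3 : (((m % 9).toNat : ℕ) : ℚ) = ((m % 9 : ℤ) : ℚ) := by exact_mod_cast h1
    have h4 : (m : ℚ) = ((m % 9 : ℤ) : ℚ) + 9 * ((m / 9 : ℤ) : ℚ) := by exact_mod_cast h2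
    rw [h3]; linarith
  have key : ∀ u, Pr yS u → ∃ u0, j u0 = u ∧ 0 < (Θ u0).1 0 := by
    intro u h
    induction h with
    | gap i =>
      refine ⟨(y0 i)⁻¹ * y0 (i + 1), by rw [map_mul, map_inv, yS_eq, yS_eq], ?_⟩
      rw [map_mul, map_inv, ma, val, ← (Θ (y0 i)).2.1.lt_iff_lt, val]
      simp only [InvMemClass.coe_inv, Equiv.Perm.coe_inv, Equiv.apply_symm_apply]
      push_cast; linarith
    | mul _ _ h1 h2 =>
      obtain ⟨u, rfl, hu⟩ := h1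
      obtain ⟨v, rfl, hv⟩ := h2
      refine ⟨u * v, map_mul _ _ _, ?_⟩
      rw [map_mul, ma]
      exact hu.trans ((Θ u).2.1 hv)
  intro h
  obtain ⟨u0, h1, h2⟩ := key 1 h
  rw [j_inj u0 h1] at h2
  simp at h2

/-! ### top level -/

def g1 : G := σ⁻¹ * b
def g2 : G := b⁻¹ * (a⁻¹ * b)
def g3 : G := (a⁻¹ * b)⁻¹ * (b⁻¹ * (a⁻¹ * b))
def g4 : G := (b⁻¹ * (a⁻¹ * b))⁻¹ * z

inductive PQ : G → Prop
  | p1 : PQ g1
  | p2 : PQ g2
  | p3 : PQ g3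
  | p4 : PQ g4
  | mul {u v : G} : PQ u → PQ v → PQ (u * v)
  | l {u : G} (k : ℤ) : PQ u → PQ (σ ^ k * u)
  | r {u : G} (k : ℤ) : PQ u → PQ (u * σ ^ k)

lemma za (u : G) : a * (z * u) = z * (a * u) := a_z.left_comm u
lemma zb (u : G) : b * (z * u) = z * (b * u) := b_z.left_comm u
lemma zai (u : G) : a⁻¹ * (z * u) = z * (a⁻¹ * u) := a_z.inv_left.left_comm u
lemma zbi (u : G) : b⁻¹ * (z * u) = z * (b⁻¹ * u) := b_z.inv_left.left_comm u
lemma zia (u : G) : a * (z⁻¹ * u) = z⁻¹ * (a * u) := a_z.inv_right.left_comm u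
lemma zib (u : G) : b * (z⁻¹ * u) = z⁻¹ * (b * u) := b_z.inv_right.left_comm u
lemma ziai (u : G) : a⁻¹ * (z⁻¹ * u) = z⁻¹ * (a⁻¹ * u) := a_z.inv_inv.left_comm u
lemma zibi (u : G) : b⁻¹ * (z⁻¹ * u) = z⁻¹ * (b⁻¹ * u) := b_z.inv_inv.left_comm u

lemma rel_z : z = σ * g1 * g2 * g3 * g4 := by unfold g1 g2 g3 g4; group
lemma rel_1 : g1 = g4 * (σ * g1 * g2) := by
  simp only [g1, g2, g4, σ, lam, mul_inv_rev, inv_inv, mul_assoc, mul_inv_cancel_left,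
    inv_mul_cancel_left, za, zb, zai, zbi, zia, zib, ziai, zibi]
lemma rel_2 : g2 = σ * g1 * (g2 * g3) := by
  simp only [g1, g2, g3, σ, lam, mul_inv_rev, inv_inv, mul_assoc, mul_inv_cancel_left,
    inv_mul_cancel_left, za, zb, zai, zbi, zia, zib, ziai, zibi]
lemma rel_3 : g3 = g2 * (g3 * g4 * σ) := by
  simp only [g2, g3, g4, σ, lam, mul_inv_rev, inv_inv, mul_assoc, mul_inv_cancel_left,
    inv_mul_cancel_left, za, zb, zai, zbi, zia, zib, ziai, zibi]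
lemma rel_4 : g4 = g3 * (g4 * σ * g1) := by
  simp only [g1, g3, g4, σ, lam, mul_inv_rev, inv_inv, mul_assoc, mul_inv_cancel_left,
    inv_mul_cancel_left, za, zb, zai, zbi, zia, zib, ziai, zibi, b_z.eq]
lemma rel_5 : z = g3 * g1 := by
  simp only [g1, g3, σ, lam, mul_inv_rev, inv_inv, mul_assoc, mul_inv_cancel_left,
    inv_mul_cancel_left, za, zb, zai, zbi, zia, zib, ziai, zibi, inv_mul_cancel, mul_one]

def vQ : ℕ → G
  | 1 => σ
  | 2 => b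
  | 3 => a⁻¹ * b
  | 4 => b⁻¹ * (a⁻¹ * b)
  | _ => 1

def yQ : ℤ → G := yy 5 z vQ
def Q : Subgroup G := Subgroup.closure {a, b, z}

lemma yQ_add (m : ℤ) : yQ (m + 5) = z * yQ m := yy_add (by norm_num) _ _ _
lemma yQ_zero : yQ 0 = 1 := by simp [yQ, yy, vQ]

lemma cellQ {q : G} (hq : q ∈ Q) : ∃ m, Le yQ (yQ m) q ∧ Lt yQ q (yQ (m + 1)) := by
  refine cover (ι := Fin 4) 5 (by norm_num) z yQ_add yQ_zero
    ![a, b, a⁻¹, b⁻¹] ![2, 3, 0, 1] ?_ ?_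
    ![1, 2, 3, 4] ![-1, 0, 2, 3] ?_ ?_ (by decide) (by decide) q ?_
  · intro s; fin_cases s <;> simp
  · intro s; fin_cases s <;> simp [a_z.symm, b_z.symm]
  · intro s; fin_cases s <;> simp [yQ, yy, vQ, σ, lam, mul_assoc, zia]
  · intro s; fin_cases s <;> simp [yQ, yy, vQ, σ, lam, mul_assoc, zbi]
  · refine Subgroup.closure_mono ?_ hq
    intro u hu
    simp only [Set.mem_insert_iff, Set.mem_singleton_iff] at hu
    rcases hu with rfl | rfl | rfl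
    · exact Or.inl ⟨0, rfl⟩
    · exact Or.inl ⟨1, rfl⟩
    · exact Or.inr rfl

lemma Pr_yQ {u : G} (h : Pr yQ u) : PQ u ∨ ∃ k : ℤ, u = σ ^ k := by
  induction h with
  | gap i =>
    rw [gap_periodic yQ_add]
    have h0 : 0 ≤ i % 5 := by omega
    have h1 : i % 5 < 5 := by omega
    generalize i % 5 = r at h0 h1
    interval_cases r
    · exact Or.inr ⟨1, by simp [yQ, yy, vQ]⟩
    · exact Or.inl (by simpa [yQ, yy, vQ, g1] using PQ.p1)
    · exact Or.inl (by simpa [yQ, yy, vQ, g2] using PQ.p2)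
    · exact Or.inl (by simpa [yQ, yy, vQ, g3] using PQ.p3)
    · exact Or.inl (by simpa [yQ, yy, vQ, g4] using PQ.p4)
  | mul _ _ h1 h2 =>
    rcases h1 with h1 | ⟨k, rfl⟩ <;> rcases h2 with h2 | ⟨l, rfl⟩
    · exact Or.inl (h1.mul h2)
    · exact Or.inl (h1.r l)
    · exact Or.inl (h2.l k)
    · exact Or.inr ⟨k + l, (zpow_add _ _ _).symm⟩

lemma PQ_z : PQ z := by
  have := (((PQ.p1.l 1).mul PQ.p2).mul PQ.p3).mul PQ.p4
  rw [zpow_one, ← rel_z] at this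
  exact this

lemma a_Q : a ∈ Q := Subgroup.subset_closure (by simp)
lemma b_Q : b ∈ Q := Subgroup.subset_closure (by simp)
lemma z_Q : z ∈ Q := Subgroup.subset_closure (by simp)
lemma lam_Q : lam ∈ Q :=
  Q.mul_mem (Q.mul_mem (Q.mul_mem a_Q (Q.inv_mem b_Q)) (Q.inv_mem a_Q)) b_Q
lemma σ_Q : σ ∈ Q := Q.mul_mem (Q.inv_mem z_Q) lam_Q

lemma Q_z {q : G} (hq : q ∈ Q) : Commute q z := by
  induction hq using Subgroup.closure_induction with
  | mem x hx =>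
    simp only [Set.mem_insert_iff, Set.mem_singleton_iff] at hx
    rcases hx with rfl | rfl | rfl
    · exact a_z
    · exact b_z
    · exact Commute.refl _
  | one => exact Commute.one_left _
  | mul _ _ _ _ h1 h2 => exact h1.mul_left h2
  | inv _ _ h => exact h.inv_left

lemma PQ_Q {q : G} (h : PQ q) : q ∈ Q := by
  have ha := a_Q
  have hb := b_Q
  have hz := z_Q
  have hs := σ_Q
  induction h with
  | p1 => exact Q.mul_mem (Q.inv_mem hs) hb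
  | p2 => exact Q.mul_mem (Q.inv_mem hb) (Q.mul_mem (Q.inv_mem ha) hb)
  | p3 =>
    exact Q.mul_mem (Q.inv_mem (Q.mul_mem (Q.inv_mem ha) hb))
      (Q.mul_mem (Q.inv_mem hb) (Q.mul_mem (Q.inv_mem ha) hb))
  | p4 => exact Q.mul_mem (Q.inv_mem (Q.mul_mem (Q.inv_mem hb) (Q.mul_mem (Q.inv_mem ha) hb))) hz
  | mul _ _ h1 h2 => exact Q.mul_mem h1 h2
  | l k _ h => exact Q.mul_mem (Q.zpow_mem hs k) h
  | r k _ h => exact Q.mul_mem h (Q.zpow_mem hs k)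

lemma conj_S (u : G) (h1 : u * x1 * u⁻¹ ∈ S) (h2 : u * x2 * u⁻¹ ∈ S) (h3 : u * x3 * u⁻¹ ∈ S)
    (h4 : u * σ * u⁻¹ ∈ S) {s : G} (hs : s ∈ S) : u * s * u⁻¹ ∈ S := by
  induction hs using Subgroup.closure_induction with
  | mem x hx =>
    simp only [Set.mem_insert_iff, Set.mem_singleton_iff] at hx
    rcases hx with rfl | rfl | rfl | rfl | rfl
    · exact h1
    · exact h2
    · exact h3
    · exact h4
    · rw [cc (t_central u)]; exact t_S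
  | one => simp
  | mul v w _ _ h1 h2 =>
    have := S.mul_mem h1 h2
    simpa [mul_assoc] using this
  | inv v _ h =>
    have := S.inv_mem h
    simpa [mul_assoc] using this

lemma z_zpow (k : ℤ) : z ^ k = (σ ^ k)⁻¹ * lam ^ k := by
  have : z = σ⁻¹ * lam := by
    rw [σ, mul_inv_rev, inv_inv, mul_assoc, ← lam_z.eq, inv_mul_cancel_left]
  rw [this, σ_lam.inv_left.mul_zpow, inv_zpow]

lemma conj_z_S (k : ℤ) {s : G} (hs : s ∈ S) : z ^ k * s * (z ^ k)⁻¹ ∈ S := by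
  have h : lam ^ k * s * (lam ^ k)⁻¹ ∈ S := by
    apply conj_S _ _ _ _ _ hs
    · rw [cc (lam_x1.zpow_left k)]; exact x1_S
    · rw [lam_zpow_x2, mul_inv_cancel_right]; exact S.mul_mem x2_S (S.zpow_mem t_S _)
    · rw [cc (lam_x3.zpow_left k)]; exact x3_S
    · rw [cc (σ_lam.symm.zpow_left k)]; exact σ_S
  have := S.mul_mem (S.mul_mem (S.inv_mem (S.zpow_mem σ_S k)) h) (S.zpow_mem σ_S k)
  rw [z_zpow]
  simpa [mul_assoc] using this

lemma decomp (g : G) : ∃ q s, q ∈ Q ∧ s ∈ S ∧ g = q * s := by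
  let Y : Subgroup G :=
    { carrier := {u | ∃ m : ℤ, ∃ s ∈ S, u = z ^ m * s}
      one_mem' := ⟨0, 1, S.one_mem, by simp⟩
      mul_mem' := by
        rintro _ _ ⟨m, s, hs, rfl⟩ ⟨n, s', hs', rfl⟩
        refine ⟨m + n, z ^ (-n) * s * (z ^ (-n))⁻¹ * s', S.mul_mem (conj_z_S _ hs) hs', ?_⟩
        group
      inv_mem' := by
        rintro _ ⟨m, s, hs, rfl⟩
        refine ⟨-m, z ^ m * s⁻¹ * (z ^ m)⁻¹, conj_z_S _ (S.inv_mem hs), ?_⟩
        group }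
  have hY : ∀ s ∈ S, s ∈ Y := fun s hs => ⟨0, s, hs, by simp⟩
  obtain ⟨m, s, hs, e⟩ := inl_mem Y (hY _ x1_S) (hY _ x2_S) (hY _ x3_S)
    ⟨1, 1, S.one_mem, by simp⟩ (hY _ t_S) (φ g.right⁻¹ g.left)
  refine ⟨inr g.right * z ^ m, s, Q.mul_mem (inr_mem Q a_Q b_Q _) (Q.zpow_mem z_Q _), hs, ?_⟩
  rw [mul_assoc, ← e, inl_aut, inv_inv, map_inv, mul_assoc, mul_inv_cancel_left,
    inl_left_mul_inr_right]

lemma triG (g : G) : g ∈ S ∨ (∃ q s, PQ q ∧ s ∈ S ∧ g = q * s) ∨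
    (∃ q s, PQ q ∧ s ∈ S ∧ g = q⁻¹ * s) := by
  obtain ⟨q, s, hq, hs, rfl⟩ := decomp g
  obtain ⟨m, h1, h2⟩ := cellQ hq
  rcases cell_tri yQ_zero h1 h2 with rfl | h | h
  · exact Or.inl (by simpa using hs)
  · rcases Pr_yQ h with h | ⟨k, rfl⟩
    · exact Or.inr (Or.inl ⟨q, s, h, hs, rfl⟩)
    · exact Or.inl (S.mul_mem (S.zpow_mem σ_S _) hs)
  · rcases Pr_yQ h with h | ⟨k, hk⟩
    · exact Or.inr (Or.inr ⟨q⁻¹, s, h, hs, by simp⟩)
    · left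
      rw [inv_eq_iff_eq_inv] at hk
      rw [hk]
      exact S.mul_mem (S.inv_mem (S.zpow_mem σ_S _)) hs

lemma floorG (g : G) : ∃ (m : ℤ) (q s : G), PQ q ∧ s ∈ S ∧ g = z ^ m * q * s := by
  obtain ⟨q, s, hq, hs, rfl⟩ := decomp g
  obtain ⟨m, h1, h2⟩ := cellQ hq
  obtain ⟨k, h3, -⟩ := cell_floor (by norm_num) yQ_add yQ_zero h1 h2
  rcases h3 with rfl | h3
  · exact ⟨k - 1, z, s, PQ_z, hs, by group⟩
  · refine ⟨k - 1, z * ((z ^ k)⁻¹ * q), s, ?_, hs, by group⟩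
    rcases Pr_yQ h3 with h | ⟨l, hl⟩
    · exact PQ_z.mul h
    · rw [hl]; exact PQ_z.r l

lemma exists_π : ∃ π : G →* W, π z = tr 1 ∧ (∀ s ∈ S, (π s).1 0 = 0) ∧
    ∀ q, PQ q → 0 < (π q).1 0 := by
  obtain ⟨A, A1, A2⟩ := exists_W (-1 / 4) (2 / 4) 0 (1 / 4) (by norm_num) (by norm_num)
    (by norm_num) (by norm_num)
  obtain ⟨B, B1, B2⟩ := exists_W 0 (3 / 4) (1 / 4) (2 / 4) (by norm_num) (by norm_num)
    (by norm_num) (by norm_num)
  obtain ⟨π, ea, eb, ez, e1, e2, e3, et⟩ := G_lift A B (tr 1) 1 1 1 1 (by simp) (by simp)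
    (by simp) (tr_comm _).symm (by simp) (by simp) (by simp) (by simp) (tr_comm _).symm (by simp)
    (by simp) (by simp) (by simp) (by simp)
  have ma : ∀ (u v : G) (x : ℚ), (π (u * v)).1 x = (π u).1 ((π v).1 x) := fun _ _ _ => by
    rw [map_mul]; rfl
  have mi : ∀ (u : G) {x y : ℚ}, (π u).1 x = y → (π u⁻¹).1 y = x := fun u _ _ h => by
    rw [map_inv]; exact W_inv_apply _ h
  have v2 : (π b).1 0 = 1 / 4 := by rw [eb, B1]
  have v3 : (π (a⁻¹ * b)).1 0 = 2 / 4 := by rw [ma, v2]; exact mi _ (by rw [ea, A2])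
  have v4 : (π (b⁻¹ * (a⁻¹ * b))).1 0 = 3 / 4 := by rw [ma, v3]; exact mi _ (by rw [eb, B2])
  have v1 : (π σ).1 0 = 0 := by
    have : σ = a * (z⁻¹ * (b⁻¹ * (a⁻¹ * b))) := by rw [zia]; simp [σ, lam, mul_assoc]
    rw [this, ma, ma, v4, mi z (x := -1 / 4) (by rw [ez]; simp; norm_num), ea, A1]
  have hS : ∀ s ∈ S, (π s).1 0 = 0 := by
    intro s hs
    induction hs using Subgroup.closure_induction with
    | mem x hx =>
      simp only [Set.mem_insert_iff, Set.mem_singleton_iff] at hx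
      rcases hx with rfl | rfl | rfl | rfl | rfl
      · simp [e1]
      · simp [e2]
      · simp [e3]
      · exact v1
      · simp [et]
    | one => simp
    | mul _ _ _ _ h1 h2 => rw [ma, h2, h1]
    | inv _ _ h => exact mi _ h
  have gp : ∀ u v : G, (π u).1 0 < (π v).1 0 → 0 < (π (u⁻¹ * v)).1 0 := by
    intro u v h
    rw [← (π u).2.1.lt_iff_lt, ← ma, mul_inv_cancel_left]
    exact h
  refine ⟨π, ez, hS, fun q hq => ?_⟩
  induction hq with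
  | p1 => exact gp _ _ (by rw [v1, v2]; norm_num)
  | p2 => exact gp _ _ (by rw [v2, v3]; norm_num)
  | p3 => exact gp _ _ (by rw [v3, v4]; norm_num)
  | p4 => exact gp _ _ (by rw [v4, ez]; simp; norm_num)
  | @mul u v _ _ h1 h2 => rw [ma]; exact h1.trans ((π u).2.1 h2)
  | l k _ h =>
    rw [ma]
    have := (π (σ ^ k)).2.1 h
    rwa [hS _ (S.zpow_mem σ_S k)] at this
  | r k _ h => rw [ma, hS _ (S.zpow_mem σ_S k)]; exact h

end Pool.Agent.H.MP_cb5d7d_al
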