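import Pool.Agent.H.MP_cb5d7d_al.C

set_option autoImplicit false

namespace Pool.Agent.H.MP_cb5d7d_al

open Filter Topology

section Psi
variable {H : Type} [Group H]

def CO (H : Type) [Group H] : Set (H → H → H → ℤ) :=
  {c | (∀ a b d, c a b d = 0 ∨ c a b d = 1 ∨ c a b d = -1) ∧
    (∀ a b d, c a b d = 0 ↔ (a = b ∨ b = d ∨ a = d)) ∧
    (∀ g₁ g₂ g₃ g₄, c g₂ g₃ g₄ - c g₁ g₃ g₄ + c g₁ g₂ g₄ - c g₁ g₂ g₃ = 0) ∧
    (∀ g a b d, c (g * a) (g * b) (g * d) = c a b d)}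

structure IsPsi (ψ : H → ℤ) : Prop where
  one : ψ 1 = 0
  odd : ∀ g, g ≠ 1 → ψ g % 2 = 1
  inv : ∀ g, ψ g⁻¹ = -ψ g
  mul : ∀ g h, ψ g + ψ h - 1 ≤ ψ (g * h)

def dl (ψ : H → ℤ) : H → H → H → ℤ := fun a b d => ψ (a⁻¹ * b) + ψ (b⁻¹ * d) - ψ (a⁻¹ * d)

lemma dl_mem {ψ : H → ℤ} (h : IsPsi ψ) : dl ψ ∈ CO H := by
  have key : ∀ a b d : H, ¬ (a = b ∨ b = d ∨ a = d) → dl ψ a b d = 1 ∨ dl ψ a b d = -1 := by
    intro a b d hn
    push Not at hn
    have o1 := h.odd (a⁻¹ * b) (by rw [Ne, inv_mul_eq_one]; exact hn.1)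
    have o2 := h.odd (b⁻¹ * d) (by rw [Ne, inv_mul_eq_one]; exact hn.2.1)
    have o3 := h.odd (a⁻¹ * d) (by rw [Ne, inv_mul_eq_one]; exact hn.2.2)
    have m1 := h.mul (a⁻¹ * b) (b⁻¹ * d)
    have m2 := h.mul (b⁻¹ * d)⁻¹ (a⁻¹ * b)⁻¹
    rw [← mul_inv_rev, h.inv, h.inv, h.inv] at m2
    rw [show a⁻¹ * b * (b⁻¹ * d) = a⁻¹ * d by group] at m1 m2
    unfold dl; omega
  have key0 : ∀ a b d : H, (a = b ∨ b = d ∨ a = d) → dl ψ a b d = 0 := by
    rintro a b d (rfl | rfl | rfl)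
    · simp [dl, h.one]
    · simp [dl, h.one]
    · have := h.inv (a⁻¹ * b)
      rw [mul_inv_rev, inv_inv] at this
      simp [dl, h.one, this]
  refine ⟨fun a b d => ?_, fun a b d => ⟨fun h0 => ?_, key0 a b d⟩, fun _ _ _ _ => ?_,
    fun g a b d => ?_⟩
  · by_cases hn : (a = b ∨ b = d ∨ a = d)
    · exact Or.inl (key0 a b d hn)
    · exact Or.inr (key a b d hn)
  · by_contra hn
    rcases key a b d hn with h1 | h1 <;> omega
  · unfold dl; ring
  · simp [dl, mul_assoc]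

lemma psi_of_cone (Pos : H → ℤ → Prop)
    (hmul : ∀ g k h l, Pos g k → Pos h l → Pos (g * h) (k + l))
    (htri : ∀ g k, g ≠ 1 → (Pos g k ↔ ¬ Pos g⁻¹ (-k)))
    (hone : ∀ k, Pos 1 k ↔ 0 < k) (hcof : ∀ g, ∃ k, Pos g k) :
    ∃ ψ, IsPsi ψ ∧ ∀ g k, Pos g k ↔ 0 < ψ g + 2 * k := by
  classical
  have mono : ∀ g k l, Pos g k → k ≤ l → Pos g l := by
    intro g k l h hl
    rcases hl.eq_or_lt with rfl | hl
    · exact h
    · have := hmul g k 1 (l - k) h ((hone _).2 (by omega))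
      simpa using this
  have ex : ∀ g, ∃ p : ℤ, (g = 1 → p = 0) ∧ (g ≠ 1 → p % 2 = 1) ∧
      ∀ k, Pos g k ↔ 0 < p + 2 * k := by
    intro g
    by_cases hg : g = 1
    · subst hg
      exact ⟨0, fun _ => rfl, fun h => absurd rfl h, fun k => by rw [hone]; omega⟩
    · obtain ⟨l, hl⟩ := hcof g⁻¹
      have hl' : ¬ Pos g (-l) := by
        rw [htri _ _ hg]; simpa using hl
      obtain ⟨k0, h0, h1⟩ := Int.exists_least_of_bdd (P := Pos g)
        ⟨-l, fun k hk => by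
          by_contra hc
          exact hl' (mono _ _ _ hk (by omega))⟩ (hcof g)
      refine ⟨1 - 2 * k0, fun h => absurd h hg, fun _ => by omega, fun k => ⟨fun hk => ?_,
        fun hk => mono _ _ _ h0 (by omega)⟩⟩
      have := h1 k hk
      omega
  choose ψ h1 h2 h3 using ex
  have hinv : ∀ g, ψ g⁻¹ = -ψ g := by
    intro g
    by_cases hg : g = 1
    · subst hg; simp [h1]
    · have o1 := h2 g hg
      have o2 := h2 g⁻¹ (by simpa using hg)
      have t1 := htri g ((1 - ψ g) / 2) hg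
      have t2 := htri g ((-1 - ψ g) / 2) hg
      rw [h3, h3] at t1 t2
      omega
  refine ⟨ψ, ⟨h1 1 rfl, h2, hinv, fun g h => ?_⟩, h3⟩
  by_cases hg : g = 1
  · subst hg; simp [h1]
  by_cases hh : h = 1
  · subst hh; simp [h1]
  by_cases hgh : g * h = 1
  · have : h = g⁻¹ := (inv_eq_of_mul_eq_one_right hgh).symm
    rw [hgh, this, hinv, h1 1 rfl]; omega
  have o1 := h2 g hg
  have o2 := h2 h hh
  have o3 := h2 _ hgh
  have := hmul g ((1 - ψ g) / 2) h ((1 - ψ h) / 2) ((h3 _ _).2 (by omega)) ((h3 _ _).2 (by omega))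
  rw [h3] at this
  omega

lemma psi_ext {ψ ψ' : H → ℤ} (h : IsPsi ψ) (h' : IsPsi ψ') (g : H)
    (e : ∀ k : ℤ, 0 < ψ g + 2 * k ↔ 0 < ψ' g + 2 * k) : ψ g = ψ' g := by
  by_cases hg : g = 1
  · subst hg; rw [h.one, h'.one]
  have o1 := h.odd g hg
  have o2 := h'.odd g hg
  have t1 := e ((1 - ψ g) / 2)
  have t2 := e ((-1 - ψ g) / 2)
  omega

@[ext] structure Ext (c : CO H) where
  g : H
  m : ℤ

lemma co_inv (c : CO H) (g h k : H) : c.1 g (g * h) (g * k) = c.1 1 h k := by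
  simpa using c.2.2.2.2 g 1 h k

instance (c : CO H) : Mul (Ext c) := ⟨fun u v => ⟨u.g * v.g, u.m + v.m - c.1 1 u.g (u.g * v.g)⟩⟩
instance (c : CO H) : One (Ext c) := ⟨⟨1, 0⟩⟩
instance (c : CO H) : Inv (Ext c) := ⟨fun u => ⟨u.g⁻¹, -u.m⟩⟩

@[simp] lemma Ext.mul_g {c : CO H} (u v : Ext c) : (u * v).g = u.g * v.g := rfl
lemma Ext.mul_m {c : CO H} (u v : Ext c) :
    (u * v).m = u.m + v.m - c.1 1 u.g (u.g * v.g) := rfl
@[simp] lemma Ext.one_g {c : CO H} : (1 : Ext c).g = 1 := rfl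
@[simp] lemma Ext.one_m {c : CO H} : (1 : Ext c).m = 0 := rfl
@[simp] lemma Ext.inv_g {c : CO H} (u : Ext c) : (u⁻¹).g = u.g⁻¹ := rfl
@[simp] lemma Ext.inv_m {c : CO H} (u : Ext c) : (u⁻¹).m = -u.m := rfl

lemma co1 (c : CO H) (g h : H) : c.1 g g h = 0 := (c.2.2.1 _ _ _).2 (Or.inl rfl)
lemma co2 (c : CO H) (g h : H) : c.1 g h h = 0 := (c.2.2.1 _ _ _).2 (Or.inr (Or.inl rfl))
lemma co3 (c : CO H) (g h : H) : c.1 g h g = 0 := (c.2.2.1 _ _ _).2 (Or.inr (Or.inr rfl))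

instance (c : CO H) : Group (Ext c) :=
  Group.ofLeftAxioms
    (fun u v w => by
      ext
      · simp [mul_assoc]
      · have h1 := c.2.2.2.1 1 u.g (u.g * v.g) (u.g * (v.g * w.g))
        rw [co_inv] at h1
        simp only [Ext.mul_m, Ext.mul_g, mul_assoc]
        omega)
    (fun u => by
      ext
      · simp
      · simp [Ext.mul_m, co1])
    (fun u => by
      ext
      · simp
      · simp [Ext.mul_m, co3])

def Ext.p (c : CO H) : Ext c →* H where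
  toFun u := u.g
  map_one' := rfl
  map_mul' _ _ := rfl

lemma Ext.comm {c : CO H} {u v : Ext c} (h : Commute u.g v.g) : Commute u v := by
  have bd : ∀ u v : Ext c, (u * v * u⁻¹).m ≤ v.m + 2 ∧ v.m - 2 ≤ (u * v * u⁻¹).m := by
    intro u v
    simp only [Ext.mul_m, Ext.inv_m]
    rcases c.2.1 1 u.g (u.g * v.g) with h1 | h1 | h1 <;>
    rcases c.2.1 1 (u * v).g ((u * v).g * u⁻¹.g) with h2 | h2 | h2 <;>
    rw [h1, h2] <;> omega
  let ζ : Ext c := ⟨1, (u * v * u⁻¹).m - v.m⟩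
  have hz : ∀ w : Ext c, w * ζ = ⟨w.g, w.m + ζ.m⟩ := by
    intro w; ext
    · simp [ζ]
    · simp [Ext.mul_m, ζ, co2]
  have hz' : ∀ w : Ext c, ζ * w = w * ζ := by
    intro w; rw [hz]; ext
    · simp [ζ]
    · simp [Ext.mul_m, ζ, co1, add_comm]
  have e1 : u * v * u⁻¹ = v * ζ := by
    rw [hz]; ext
    · simp [cc h]
    · simp [ζ]
  have e2 : ∀ w : Ext c, u * (w * ζ) * u⁻¹ = u * w * u⁻¹ * ζ := by
    intro w
    rw [mul_assoc, mul_assoc, hz', ← mul_assoc, ← mul_assoc]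
  have e3 : (u * u * u) * v * (u * u * u)⁻¹ = v * ζ * ζ * ζ := by
    calc (u * u * u) * v * (u * u * u)⁻¹ = u * (u * (u * v * u⁻¹) * u⁻¹) * u⁻¹ := by group
      _ = _ := by rw [e1, e2, e1, e2, e2, e1]
  have b1 := bd (u * u * u) v
  rw [e3, hz, hz, hz] at b1
  have z0 : ζ = 1 := by
    ext
    · rfl
    · simp only at b1
      simp only [Ext.one_m]; omega
  rw [z0, mul_one] at e1
  exact comm_of e1

end Psi

lemma lift_psi {ψ0 : G → ℤ} (h0 : IsPsi ψ0) (c : G → G → G → ℤ) (hc : c ∈ CO G) :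
    ∃ ψ, IsPsi ψ ∧ dl ψ = c ∧ ψ a = ψ0 a ∧ ψ b = ψ0 b ∧ ψ z = ψ0 z ∧ ψ x2 = ψ0 x2 ∧
      ψ x3 = ψ0 x3 := by
  let C : CO G := ⟨c, hc⟩
  let L : G → Ext C := fun g => ⟨g, ψ0 g⟩
  let X1 : Ext C := (L x2)⁻¹ * (L b * L x2 * (L b)⁻¹)
  let T : Ext C := X1⁻¹ * (L a * X1 * (L a)⁻¹)
  have e1 : X1.g = x1 := by
    show x2⁻¹ * (b * x2 * b⁻¹) = x1
    rw [b_x2]; group
  have eT : T.g = t := by
    show X1.g⁻¹ * (a * X1.g * a⁻¹) = t
    rw [e1, a_x1]; group
  have hT : ∀ u : Ext C, Commute u T := fun u => Ext.comm (by rw [eT]; exact t_central _)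
  obtain ⟨ρ, ra, rb, rz, -, r2, r3, -⟩ := G_lift (L a) (L b) (L z) X1 (L x2) (L x3) T
    (by simp only [T]; group) (Ext.comm a_x2) (Ext.comm a_x3) (Ext.comm a_z) (hT _)
    (Ext.comm (by rw [e1]; exact b_x1)) (by simp only [X1]; group) (Ext.comm b_x3)
    (Ext.comm b_z) (hT _) (hT _) (hT _) (hT _) (hT _)
  have hg : ∀ g, (ρ g).g = g := fun g =>
    G_ind (((Ext.p C).comp ρ).eqLocus (MonoidHom.id G))
      (show (ρ a).g = a by rw [ra]) (show (ρ b).g = b by rw [rb]) (show (ρ z).g = z by rw [rz])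
      (show (ρ x2).g = x2 by rw [r2]) (show (ρ x3).g = x3 by rw [r3]) g
  have hm : ∀ g h, (ρ (g * h)).m = (ρ g).m + (ρ h).m - c 1 g (g * h) := by
    intro g h
    rw [map_mul, Ext.mul_m, hg, hg]
  have hi : ∀ g, (ρ g⁻¹).m = -(ρ g).m := fun g => by rw [map_inv, Ext.inv_m]
  let O : Subgroup G :=
    { carrier := {g | g ≠ 1 → (ρ g).m % 2 = 1}
      one_mem' := fun h => absurd rfl h
      mul_mem' := by
        intro g h h1 h2 h3
        by_cases hg1 : g = 1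
        · subst hg1; rw [one_mul] at h3 ⊢; exact h2 h3
        by_cases hh1 : h = 1
        · subst hh1; rw [mul_one] at h3 ⊢; exact h1 h3
        have o1 := h1 hg1
        have o2 := h2 hh1
        have n0 : c 1 g (g * h) ≠ 0 := by
          rw [Ne, hc.2.1]
          push Not
          exact ⟨Ne.symm hg1, by simpa using hh1, Ne.symm h3⟩
        rw [hm]
        rcases hc.1 1 g (g * h) with h4 | h4 | h4 <;> omega
      inv_mem' := by
        intro g h1 h2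
        have := h1 (by simpa using h2)
        rw [hi]; omega }
  have hO : ∀ g, g ∈ O := G_ind O (fun h => by rw [ra]; exact h0.odd _ h)
    (fun h => by rw [rb]; exact h0.odd _ h) (fun h => by rw [rz]; exact h0.odd _ h)
    (fun h => by rw [r2]; exact h0.odd _ h) (fun h => by rw [r3]; exact h0.odd _ h)
  refine ⟨fun g => (ρ g).m, ⟨by simp, hO, hi, fun g h => ?_⟩, ?_, congrArg Ext.m ra,
    congrArg Ext.m rb, congrArg Ext.m rz, congrArg Ext.m r2, congrArg Ext.m r3⟩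
  · rw [hm]
    rcases hc.1 1 g (g * h) with h4 | h4 | h4 <;> omega
  · funext u v w
    have h1 := hm (u⁻¹ * v) (v⁻¹ * w)
    have h2 := hc.2.2.2 u⁻¹ u v w
    rw [show u⁻¹ * v * (v⁻¹ * w) = u⁻¹ * w by group] at h1
    rw [inv_mul_cancel] at h2
    simp only [dl]
    omega

lemma local_psi {ψ0 : G → ℤ} (h0 : IsPsi ψ0) :
    ∃ F : (G → G → G → ℤ) → G → ℤ, (∀ c ∈ CO G, IsPsi (F c) ∧ dl (F c) = c) ∧
      ∀ g, ∀ᶠ c in 𝓝 (dl ψ0), c ∈ CO G → F c g = ψ0 g := by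
  classical
  choose! F h1 h2 ha hb hz h3 h4 using lift_psi h0
  refine ⟨F, fun c hc => ⟨h1 c hc, h2 c hc⟩, ?_⟩
  let P : Subgroup G :=
    { carrier := {g | ∀ᶠ c in 𝓝 (dl ψ0), c ∈ CO G → F c g = ψ0 g}
      one_mem' := Eventually.of_forall fun c hc => by rw [(h1 c hc).one, h0.one]
      mul_mem' := by
        intro g h e1 e2
        have hcont : Continuous fun c : G → G → G → ℤ => c 1 g (g * h) := by fun_prop
        have e3 : ∀ᶠ c in 𝓝 (dl ψ0), c 1 g (g * h) = dl ψ0 1 g (g * h) := by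
          have := hcont.tendsto (dl ψ0)
          rw [nhds_discrete ℤ, tendsto_pure] at this
          exact this
        filter_upwards [e1, e2, e3] with c c1 c2 c3 hc
        have c4 := congrFun (congrFun (congrFun (h2 c hc) 1) g) (g * h)
        rw [c3] at c4
        simp only [dl, inv_one, one_mul, inv_mul_cancel_left] at c4
        have := c1 hc
        have := c2 hc
        omega
      inv_mem' := by
        intro g e1
        filter_upwards [e1] with c c1 hc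
        rw [(h1 c hc).inv, h0.inv, c1 hc] }
  exact G_ind P (Eventually.of_forall ha) (Eventually.of_forall hb) (Eventually.of_forall hz)
    (Eventually.of_forall h3) (Eventually.of_forall h4)

end Pool.Agent.H.MP_cb5d7d_al
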