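import Pool.Agent.H.MP_cb5d7d_al.D

set_option autoImplicit false

namespace Pool.Agent.H.MP_cb5d7d_al

def R (g : G) : Prop := ∃ q s, PQ q ∧ s ∈ S ∧ g = q * s
def Rm (g : G) : Prop := ∃ q s, PQ q ∧ s ∈ S ∧ g = q⁻¹ * s
def Pos0 (g : G) : Prop := R g ∨ Pr yS g
def Neg0 (g : G) : Prop := Rm g ∨ Pr yS g⁻¹ ∨ g = 1

def DecP : Option (ℤ × Bool) → G → ℤ → Prop
  | none, g, k => 0 < k ∨ (k = 0 ∧ Pos0 g)
  | some (N, e), g, k => R (z ^ (N * k) * g) ∨
      (z ^ (N * k) * g ∈ S ∧ ((e = true ∧ 0 < k) ∨ (e = false ∧ k < 0))) ∨ (k = 0 ∧ Pos0 g)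

def DecN : Option (ℤ × Bool) → G → ℤ → Prop
  | none, g, k => k < 0 ∨ (k = 0 ∧ Neg0 g)
  | some (N, e), g, k => Rm (z ^ (N * k) * g) ∨
      (z ^ (N * k) * g ∈ S ∧ ((e = true ∧ k < 0) ∨ (e = false ∧ 0 < k))) ∨ (k = 0 ∧ Neg0 g)

lemma pos0_or (g : G) : Pos0 g ∨ Neg0 g := by
  rcases triG g with h | h | h
  · rcases triS h with h | h | h
    · exact Or.inr (Or.inr (Or.inr h))
    · exact Or.inl (Or.inr h)
    · exact Or.inr (Or.inr (Or.inl h))
  · exact Or.inl (Or.inl h)
  · exact Or.inr (Or.inl h)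

lemma dec_or (d : Option (ℤ × Bool)) (g : G) (k : ℤ) : DecP d g k ∨ DecN d g k := by
  have h0 := pos0_or g
  rcases d with _ | ⟨N, e⟩
  · simp only [DecP, DecN]
    rcases lt_trichotomy k 0 with h | h | h <;> tauto
  · simp only [DecP, DecN]
    rcases triG (z ^ (N * k) * g) with h1 | h1 | h1
    · rcases lt_trichotomy k 0 with h | h | h <;> cases e <;> tauto
    · exact Or.inl (Or.inl h1)
    · exact Or.inr (Or.inl h1)

section Ord
variable {Γ : Type} [Group Γ] [LinearOrder Γ] [MulLeftStrictMono Γ]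

def Bd (T γ : Γ) : Prop := ∃ n : ℤ, T ^ (-n) < γ ∧ γ < T ^ n
def Big (T γ : Γ) : Prop := ∀ n : ℤ, T ^ n < γ

lemma zp_mono {T : Γ} (h : 1 < T) : StrictMono fun n : ℤ => T ^ n :=
  strictMono_int_of_lt_succ fun n => by
    rw [zpow_add_one]
    simpa using mul_lt_mul_right h (T ^ n)

lemma lt_mul' {u v : Γ} (h : 1 < v) : u < u * v := by simpa using mul_lt_mul_right h u

lemma inv_lt' {u : Γ} (h : 1 < u) : u⁻¹ < 1 := by simpa using mul_lt_mul_right h u⁻¹

variable {T : Γ} (hT : ∀ γ, Commute γ T) (h1 : 1 < T)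
include hT

lemma shift {u v : Γ} (n : ℤ) (h : u < v) : u * T ^ n < v * T ^ n := by
  rw [((hT u).zpow_right n).eq, ((hT v).zpow_right n).eq]
  exact mul_lt_mul_right h _

lemma inv_lt_of {u : Γ} {n : ℤ} (h : T ^ (-n) < u) : u⁻¹ < T ^ n := by
  have := mul_lt_mul_right (shift hT n h) u⁻¹
  simpa using this

lemma lt_inv_of {u : Γ} {n : ℤ} (h : u < T ^ n) : T ^ (-n) < u⁻¹ := by
  have := mul_lt_mul_right (shift hT (-n) h) u⁻¹
  simpa using this

lemma Bd.inv {u : Γ} (h : Bd T u) : Bd T u⁻¹ := by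
  obtain ⟨n, a1, a2⟩ := h
  exact ⟨n, lt_inv_of hT a2, inv_lt_of hT a1⟩

lemma Bd.mul {u v : Γ} (h : Bd T u) (h' : Bd T v) : Bd T (u * v) := by
  obtain ⟨n, a1, a2⟩ := h
  obtain ⟨m, b1, b2⟩ := h'
  refine ⟨n + m, ?_, ?_⟩
  · calc T ^ (-(n + m)) = T ^ (-n) * T ^ (-m) := by group
      _ < u * T ^ (-m) := shift hT _ a1
      _ < u * v := mul_lt_mul_right b1 _
  · calc u * v < u * T ^ m := mul_lt_mul_right b2 _
      _ < T ^ n * T ^ m := shift hT _ a2
      _ = _ := by group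

lemma Big.mul_bd {u v : Γ} (h : Big T u) (h' : Bd T v) : Big T (u * v) := by
  obtain ⟨m, b1, -⟩ := h'
  intro n
  calc T ^ n = T ^ (n + m) * T ^ (-m) := by group
    _ < u * T ^ (-m) := shift hT _ (h _)
    _ < u * v := mul_lt_mul_right b1 _

lemma Bd.mul_big {u v : Γ} (h : Bd T u) (h' : Big T v) : Big T (u * v) := by
  obtain ⟨m, b1, -⟩ := h
  intro n
  calc T ^ n = T ^ (-m) * T ^ (n + m) := by group
    _ < u * T ^ (n + m) := shift hT _ b1
    _ < u * v := mul_lt_mul_right (h' _) _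

lemma pos_mul_big {u v : Γ} (h : 1 ≤ u) (h' : Big T v) : Big T (u * v) := by
  rcases h.eq_or_lt with rfl | h
  · simpa using h'
  intro n
  calc T ^ n = 1 * T ^ n := by group
    _ < u * T ^ n := shift hT _ h
    _ < u * v := mul_lt_mul_right (h' _) _

omit hT [MulLeftStrictMono Γ] in
lemma Big.pos {u : Γ} (h : Big T u) : 1 < u := by simpa using h 0

lemma Big.mul {u v : Γ} (h : Big T u) (h' : Big T v) : Big T (u * v) :=
  pos_mul_big hT h.pos.le h'

omit hT [MulLeftStrictMono Γ] in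
lemma Big.not_bd {u : Γ} (h : Big T u) : ¬ Bd T u := fun ⟨n, _, h2⟩ => lt_asymm (h n) h2

omit hT in
include h1 in
lemma big_of {u : Γ} (h : 1 < u) (h' : ¬ Bd T u) : Big T u := by
  intro n
  by_contra hc
  apply h'
  refine ⟨|n| + 1, ?_, ?_⟩
  · refine lt_trans ?_ h
    have := zp_mono h1 (show -(|n| + 1) < 0 by have := abs_nonneg n; omega)
    simpa using this
  · exact (not_lt.mp hc).trans_lt (zp_mono h1 (by have := le_abs_self n; omega))

omit hT in
include h1 in
lemma bd_zpow (n : ℤ) : Bd T (T ^ n) :=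
  ⟨|n| + 1, zp_mono h1 (by have := neg_abs_le n; omega),
    zp_mono h1 (by have := le_abs_self n; omega)⟩

include h1 in
lemma Bd.zpow {u : Γ} (h : Bd T u) (k : ℤ) : Bd T (u ^ k) := by
  induction k using Int.induction_on with
  | zero => simpa using bd_zpow h1 0
  | succ k ih => rw [zpow_add_one]; exact ih.mul hT h
  | pred k ih => rw [zpow_sub_one]; exact ih.mul hT (h.inv hT)

def NN (T γ : Γ) : Prop := Bd T γ ∨ Big T γ

lemma NN.mul {u v : Γ} (h : NN T u) (h' : NN T v) : NN T (u * v) := by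
  rcases h with h | h <;> rcases h' with h' | h'
  · exact Or.inl (h.mul hT h')
  · exact Or.inr (h.mul_big hT h')
  · exact Or.inr (h.mul_bd hT h')
  · exact Or.inr (h.mul hT h')

lemma Big.mul_nn {u v : Γ} (h : Big T u) (h' : NN T v) : Big T (u * v) := by
  rcases h' with h' | h'
  · exact h.mul_bd hT h'
  · exact h.mul hT h'

lemma NN.mul_big {u v : Γ} (h : NN T u) (h' : Big T v) : Big T (u * v) := by
  rcases h with h | h
  · exact h.mul_big hT h'
  · exact h.mul hT h'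

include h1 in
lemma nn_or (u : Γ) : NN T u ∨ Big T u⁻¹ := by
  by_cases hb : Bd T u
  · exact Or.inl (Or.inl hb)
  rcases lt_trichotomy 1 u with h | h | h
  · exact Or.inl (Or.inr (big_of h1 h hb))
  · subst h; exact absurd (by simpa using bd_zpow h1 0) hb
  · right
    refine big_of h1 (by simpa using mul_lt_mul_right h u⁻¹) fun hc => hb ?_
    simpa using hc.inv hT

end Ord

theorem uniq {Γ : Type} [Group Γ] [LinearOrder Γ] [MulLeftStrictMono Γ] (ι : G →* Γ) (ζ : Γ)
    (hζ : ∀ γ, Commute γ ζ) (hT : ∀ γ, Commute γ (ι t)) (ζ1 : 1 < ζ)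
    (cof : ∃ n : ℤ, ι z < ζ ^ n) (hS : ∀ i, 1 < ι ((yS i)⁻¹ * yS (i + 1)))
    (p1 : 1 < ι g1) (p2 : 1 < ι g2) (p3 : 1 < ι g3) (p4 : 1 < ι g4) :
    ∃ d, ∀ g k, (DecP d g k → 1 < ι g * ζ ^ k) ∧ (DecN d g k → ¬ 1 < ι g * ζ ^ k) := by
  set T := ι t with hTd
  have prS : ∀ u, Pr yS u → 1 < ι u := by
    intro u h
    induction h with
    | gap i => exact hS i
    | mul _ _ h1 h2 => rw [map_mul]; exact h1.trans (lt_mul' h2)
  have ltS : ∀ u v, Lt yS u v → ι u < ι v := by
    intro u v h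
    have := mul_lt_mul_right (prS _ h) (ι u)
    simpa using this
  have leS : ∀ u v, Le yS u v → ι u ≤ ι v := by
    rintro u v (rfl | h)
    · exact le_rfl
    · exact (ltS _ _ h).le
  have T1 : 1 < T := prS _ Pr_t
  have fl : ∀ s ∈ S, ∃ k : ℤ, T ^ k ≤ ι s ∧ ι s < T ^ (k + 1) := by
    intro s hs
    obtain ⟨k, a1, a2⟩ := floorS hs
    exact ⟨k, by simpa using leS _ _ a1, by simpa using ltS _ _ a2⟩
  have bS : ∀ s ∈ S, Bd T (ι s) := by
    intro s hs
    obtain ⟨k, a1, a2⟩ := fl s hs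
    exact ⟨|k| + 1, (zp_mono T1 (by have := neg_abs_le k; omega)).trans_le a1,
      a2.trans_le ((zp_mono T1).monotone (by have := le_abs_self k; omega))⟩
  have heis : ∀ j k : ℤ, j ≠ 0 → ¬ Bd T (ι (lam ^ j) * ζ ^ k) := by
    rintro j k hj ⟨n, a1, a2⟩
    set μ := ι (lam ^ j) * ζ ^ k with hμ
    set r : ℤ := -j * (2 * |n| + 1) with hr
    obtain ⟨m, b1, b2⟩ := fl (x2 ^ r) (S.zpow_mem x2_S r)
    have s1 : SemiconjBy (lam ^ j) x2 (x2 * t ^ (-j)) := lam_zpow_x2 j
    have s2 := (s1.zpow_right r).eq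
    rw [((t_central x2).zpow_right _).mul_zpow, ← zpow_mul] at s2
    have s3 : μ * ι (x2 ^ r) = ι (x2 ^ r) * (T ^ (-j * r) * μ) := by
      rw [hμ, mul_assoc, ← ((hζ _).zpow_right k).eq, ← mul_assoc, ← map_mul, s2, map_mul,
        map_mul, map_zpow ι t, mul_assoc, mul_assoc]
    have c1 : μ * ι (x2 ^ r) < T ^ (n + (m + 1)) :=
      calc μ * ι (x2 ^ r) < μ * T ^ (m + 1) := mul_lt_mul_right b2 _
        _ < T ^ n * T ^ (m + 1) := shift hT _ a2
        _ = _ := by group
    have c2 : T ^ (-j * r + -n + m) < μ * ι (x2 ^ r) :=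
      calc T ^ (-j * r + -n + m) = T ^ (-j * r + -n) * T ^ m := by rw [← zpow_add]
        _ ≤ T ^ (-j * r + -n) * ι (x2 ^ r) := by
          rcases b1.eq_or_lt with h | h
          · rw [h]
          · exact (mul_lt_mul_right h _).le
        _ = ι (x2 ^ r) * (T ^ (-j * r) * T ^ (-n)) := by
          rw [← zpow_add, ((hT _).zpow_right _).eq]
        _ < ι (x2 ^ r) * (T ^ (-j * r) * μ) := mul_lt_mul_right (mul_lt_mul_right a1 _) _
        _ = _ := s3.symm
    have c3 := (zp_mono T1).lt_iff_lt.mp (c2.trans c1)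
    have c4 : 1 ≤ j * j := by
      rcases lt_or_gt_of_ne hj with h | h <;> nlinarith
    have c5 := le_abs_self n
    have c6 := abs_nonneg n
    rw [hr] at c3
    nlinarith
  have hz1 : ∀ j k : ℤ, j ≠ 0 → ¬ Bd T (ι (z ^ j) * ζ ^ k) := by
    intro j k hj hb
    apply heis j k hj
    have := (bS _ (S.zpow_mem σ_S j)).mul hT hb
    rwa [← mul_assoc, ← map_mul, z_zpow, mul_inv_cancel_left] at this
  have nn : ∀ u : Γ, 1 < u → NN T u := by
    intro u hu
    rcases nn_or hT T1 u with h | h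
    · exact h
    · exact absurd h.pos (lt_asymm (inv_lt' hu))
  have nσ : NN T (ι σ) := Or.inl (bS _ σ_S)
  have n1 := nn _ p1
  have n2 := nn _ p2
  have n3 := nn _ p3
  have n4 := nn _ p4
  have i41 : Big T (ι g4) → Big T (ι g1) := fun h => by
    rw [rel_1, map_mul, map_mul, map_mul]
    exact h.mul_nn hT ((nσ.mul hT n1).mul hT n2)
  have i34 : Big T (ι g3) → Big T (ι g4) := fun h => by
    rw [rel_4, map_mul, map_mul, map_mul]
    exact h.mul_nn hT ((n4.mul hT nσ).mul hT n1)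
  have i23 : Big T (ι g2) → Big T (ι g3) := fun h => by
    rw [rel_3, map_mul, map_mul, map_mul]
    exact h.mul_nn hT ((n3.mul hT n4).mul hT nσ)
  have i12 : Big T (ι g1) → Big T (ι g2) := fun h => by
    rw [rel_2, map_mul, map_mul, map_mul]
    exact (nσ.mul_big hT h).mul_nn hT (n2.mul hT n3)
  have B1 : Big T (ι g1) := by
    by_contra hc
    have a1 : Bd T (ι g1) := n1.resolve_right hc
    have a3 : Bd T (ι g3) := n3.resolve_right fun h => hc (i41 (i34 h))
    apply hz1 1 0 one_ne_zero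
    rw [zpow_one, zpow_zero, mul_one, rel_5, map_mul]
    exact a3.mul hT a1
  have B2 := i12 B1
  have B3 := i23 B2
  have B4 := i34 B3
  -- infinitesimal elements
  have inf : ∀ w : Γ, (∀ q ∈ Q, Commute w (ι q)) → Big T (w * ι g1) →
      ∀ q, PQ q → Big T (w * ι q) := by
    intro w hw hb q hq
    have a2 : Big T (w * ι g2) := by
      rw [rel_2, map_mul, map_mul, map_mul, ← mul_assoc w, ← mul_assoc w, (hw _ σ_Q).eq,
        mul_assoc (ι σ) w]
      exact (nσ.mul_big hT hb).mul_nn hT (n2.mul hT n3)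
    have a3 : Big T (w * ι g3) := by
      rw [rel_3, map_mul, map_mul, map_mul, ← mul_assoc]
      exact a2.mul_nn hT ((n3.mul hT n4).mul hT nσ)
    have a4 : Big T (w * ι g4) := by
      rw [rel_4, map_mul, map_mul, map_mul, ← mul_assoc]
      exact a3.mul_nn hT ((n4.mul hT nσ).mul hT n1)
    have key : Big T (w * ι q) ∧ Big T (ι q) := by
      induction hq with
      | p1 => exact ⟨hb, B1⟩
      | p2 => exact ⟨a2, B2⟩
      | p3 => exact ⟨a3, B3⟩
      | p4 => exact ⟨a4, B4⟩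
      | mul _ _ h1 h2 =>
        rw [map_mul, ← mul_assoc]
        exact ⟨h1.1.mul hT h2.2, h1.2.mul hT h2.2⟩
      | l k _ h =>
        rw [map_mul, ← mul_assoc, (hw _ (Q.zpow_mem σ_Q k)).eq, mul_assoc]
        exact ⟨(bS _ (S.zpow_mem σ_S k)).mul_big hT h.1, (bS _ (S.zpow_mem σ_S k)).mul_big hT h.2⟩
      | r k _ h =>
        rw [map_mul, ← mul_assoc]
        exact ⟨h.1.mul_bd hT (bS _ (S.zpow_mem σ_S k)), h.2.mul_bd hT (bS _ (S.zpow_mem σ_S k))⟩
    exact key.1
  have BQ : ∀ q, PQ q → Big T (ι q) := fun q hq => by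
    simpa using inf 1 (fun _ _ => Commute.one_left _) (by simpa using B1) q hq
  have infn : ∀ w : Γ, (∀ q ∈ Q, Commute w (ι q)) → Big T (w * ι g1) →
      ∀ k : ℕ, Big T (w ^ k * ι g1) := by
    intro w hw hb k
    induction k with
    | zero => simpa using B1
    | succ k ih =>
      have a1 := inf (w ^ k) (fun q hq => (hw q hq).pow_left k) ih g4 PQ.p4
      have a2 := inf w hw hb _ ((PQ.p1.l 1).mul PQ.p2)
      have a3 := a1.mul hT a2
      rw [zpow_one, mul_assoc, ← mul_assoc (ι g4), ← (hw _ (PQ_Q PQ.p4)).eq, mul_assoc,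
        ← map_mul, ← rel_1, ← mul_assoc, ← pow_succ] at a3
      exact a3
  have neg : ∀ u : Γ, 1 < u⁻¹ → ¬ 1 < u := fun u h h' => lt_asymm h (inv_lt' h')
  have P0 : ∀ g, Pos0 g → 1 < ι g := by
    rintro g (⟨q, s, hq, hs, rfl⟩ | h)
    · rw [map_mul]; exact ((BQ q hq).mul_bd hT (bS s hs)).pos
    · exact prS _ h
  have N0 : ∀ g, Neg0 g → ¬ 1 < ι g := by
    rintro g (⟨q, s, hq, hs, rfl⟩ | h | rfl)
    · apply neg
      rw [← map_inv, mul_inv_rev, inv_inv, map_mul]
      exact ((bS _ (S.inv_mem hs)).mul_big hT (BQ q hq)).pos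
    · apply neg; rw [← map_inv]; exact prS _ h
    · simp
  have Bz := BQ z PQ_z
  by_cases hcase : ∀ j : ℤ, 1 < ι (z ^ j) * ζ
  · have key : ∀ g (k : ℤ), 0 < k → 1 < ι g * ζ ^ k := by
      intro g k hk
      obtain ⟨m, q, s, hq, hs, rfl⟩ := floorG g
      have a1 : 1 ≤ ζ ^ (k - 1) := by
        simpa using (zp_mono ζ1).monotone (show 0 ≤ k - 1 by omega)
      have a2 := (pos_mul_big hT (hcase m).le (pos_mul_big hT a1
        ((BQ q hq).mul_bd hT (bS s hs)))).pos
      have e : ι (z ^ m * q * s) * ζ ^ k = ι (z ^ m) * ζ * (ζ ^ (k - 1) * (ι q * ι s)) := by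
        rw [map_mul, map_mul, mul_assoc, mul_assoc, mul_assoc, ← mul_assoc ζ, ← zpow_one_add,
          add_sub_cancel, ← mul_assoc (ι q), ((hζ _).zpow_right k).eq]
      rwa [e]
    refine ⟨none, fun g k => ⟨?_, ?_⟩⟩
    · rintro (h | ⟨rfl, h⟩)
      · exact key g k h
      · simpa using P0 g h
    · rintro (h | ⟨rfl, h⟩)
      · apply neg
        have := key g⁻¹ (-k) (by omega)
        rwa [mul_inv_rev, ← zpow_neg, ← ((hζ _).zpow_right _).eq, ← map_inv]
      · simpa using N0 g h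
  · push Not at hcase
    have hz2 : ∀ j : ℤ, ¬ Bd T (ι (z ^ j) * ζ) := by
      intro j
      by_cases hj : j = 0
      · subst hj
        intro hb
        rw [zpow_zero, map_one, one_mul] at hb
        obtain ⟨n, hn⟩ := cof
        exact Big.not_bd (fun m => (Bz m).trans hn) (hb.zpow hT T1 n)
      · simpa using hz1 j 1 hj
    obtain ⟨j, hj1, hj2⟩ := Int.exists_greatest_of_bdd (P := fun j => ι (z ^ j) * ζ ≤ 1)
      ⟨0, fun j hj => by
        by_contra hc
        have a1 : 1 < ι z ^ j := by simpa using zp_mono Bz.pos (show 0 < j by omega)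
        rw [map_zpow] at hj
        exact absurd (a1.trans (lt_mul' ζ1)) (not_lt.mpr hj)⟩ hcase
    have cw : ∀ i : ℤ, ∀ q ∈ Q, Commute (ι (z ^ i) * ζ) (ι q) := fun i q hq =>
      (((Q_z hq).zpow_right i).symm.map ι).mul_left (hζ _).symm
    set y := ι (z ^ (j + 1)) * ζ with hy
    set y' := ι (z ^ j) * ζ with hy'
    have By : Big T y := big_of T1 (by
      by_contra hc
      have := hj2 (j + 1) (not_lt.mp hc)
      omega) (hz2 _)
    have By' : Big T y'⁻¹ := by
      rcases nn_or hT T1 y' with (h | h) | h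
      · exact absurd h (hz2 _)
      · exact absurd h.pos (not_lt.mpr hj1)
      · exact h
    have yy' : y * y'⁻¹ = ι z := by
      rw [hy, hy', mul_inv_rev, mul_assoc, mul_inv_cancel_left, ← map_inv, ← map_mul]
      congr 1; group
    have dich : Big T (y⁻¹ * ι g1) ∨ Big T (y' * ι g1) := by
      by_contra hc
      push Not at hc
      have a1 : NN T ((ι g1)⁻¹ * y) := (nn_or hT T1 _).resolve_right (by simpa using hc.1)
      have a2 : NN T ((ι g1)⁻¹ * y'⁻¹) := (nn_or hT T1 _).resolve_right (by simpa using hc.2)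
      have a3 : Big T ((ι g3)⁻¹ * ι g1) := by
        have e : g3⁻¹ * g1 = (g4 * σ * g1) * (σ * g1 * g2) := by
          conv_lhs => rw [rel_1]
          conv_lhs => rw [rel_4]
          group
        rw [← map_inv, ← map_mul, e]
        have := BQ _ (((PQ.p4.r 1).mul PQ.p1).mul ((PQ.p1.l 1).mul PQ.p2))
        simpa only [zpow_one] using this
      have a4 := a1.mul_big hT (a3.mul_nn hT a2)
      have e : (ι g1)⁻¹ * y * ((ι g3)⁻¹ * ι g1 * ((ι g1)⁻¹ * y'⁻¹)) = 1 := by
        rw [mul_assoc (ι g3)⁻¹, mul_inv_cancel_left, mul_assoc, ← mul_assoc y,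
          (cw (j + 1) _ (PQ_Q PQ.p3)).inv_right.eq, mul_assoc, yy', rel_5, map_mul]
        group
      rw [e] at a4
      exact lt_irrefl _ a4.pos
    have fin : ∀ (N : ℤ) (e : Bool), Big T ((ι (z ^ (-N)) * ζ) * ι g1) →
        Big T ((ι (z ^ (-N)) * ζ)⁻¹ * ι g1) → (e = true → Big T (ι (z ^ (-N)) * ζ)) →
        (e = false → Big T (ι (z ^ (-N)) * ζ)⁻¹) →
        ∀ g k, (DecP (some (N, e)) g k → 1 < ι g * ζ ^ k) ∧
          (DecN (some (N, e)) g k → ¬ 1 < ι g * ζ ^ k) := by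
      intro N e b1 b2 b3 b4 g k
      set u := ι (z ^ (-N)) * ζ with hu
      have cu : ∀ q ∈ Q, Commute u (ι q) := cw (-N)
      have all : ∀ (k : ℤ) q, PQ q → Big T (u ^ k * ι q) := by
        intro k
        apply inf _ (fun q hq => (cu q hq).zpow_left k)
        obtain ⟨n, rfl | rfl⟩ := Int.eq_nat_or_neg k
        · simpa using infn u cu b1 n
        · simpa using infn u⁻¹ (fun q hq => (cu q hq).inv_left) b2 n
      have bp : ∀ v : Γ, Big T v → ∀ k : ℤ, 0 < k → Big T (v ^ k) := by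
        intro v hv k hk
        have a1 : 1 ≤ v ^ (k - 1) := by
          simpa using (zp_mono hv.pos).monotone (show 0 ≤ k - 1 by omega)
        have := pos_mul_big hT a1 hv
        rwa [← zpow_add_one, sub_add_cancel] at this
      have e1 : ι g * ζ ^ k = u ^ k * ι (z ^ (N * k) * g) := by
        rw [hu, (hζ _).mul_zpow, ← map_zpow, ← zpow_mul, mul_assoc, ← ((hζ _).zpow_right k).eq,
          ← mul_assoc, ← map_mul]
        congr 2; group
      refine ⟨?_, ?_⟩
      · rintro (⟨q, s, hq, hs, h⟩ | ⟨hs, ⟨h, hk⟩ | ⟨h, hk⟩⟩ | ⟨rfl, h⟩)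
        · rw [e1, h, map_mul, ← mul_assoc]
          exact ((all k q hq).mul_bd hT (bS s hs)).pos
        · rw [e1]; exact ((bp _ (b3 h) k hk).mul_bd hT (bS _ hs)).pos
        · rw [e1]
          have := bp _ (b4 h) (-k) (by omega)
          rw [inv_zpow', neg_neg] at this
          exact (this.mul_bd hT (bS _ hs)).pos
        · simpa using P0 g h
      · rintro (⟨q, s, hq, hs, h⟩ | ⟨hs, ⟨h, hk⟩ | ⟨h, hk⟩⟩ | ⟨rfl, h⟩)
        · apply neg
          rw [e1, h, mul_inv_rev, ← map_inv, mul_inv_rev, inv_inv, map_mul, mul_assoc,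
            ← zpow_neg, ← ((cu q (PQ_Q hq)).zpow_left _).eq]
          exact ((bS _ (S.inv_mem hs)).mul_big hT (all _ q hq)).pos
        · apply neg
          rw [e1, mul_inv_rev, ← zpow_neg]
          exact (((bS _ hs).inv hT).mul_big hT (bp _ (b3 h) (-k) (by omega))).pos
        · apply neg
          rw [e1, mul_inv_rev, ← inv_zpow]
          exact (((bS _ hs).inv hT).mul_big hT (bp _ (b4 h) k hk)).pos
        · simpa using N0 g h
    rcases dich with h | h
    · refine ⟨some (-(j + 1), true), fin _ _ ?_ ?_ ?_ ?_⟩ <;> rw [neg_neg]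
      · exact By.mul hT B1
      · exact h
      · exact fun _ => By
      · exact fun h => absurd h (by simp)
    · refine ⟨some (-j, false), fin _ _ ?_ ?_ ?_ ?_⟩ <;> rw [neg_neg]
      · exact h
      · exact By'.mul hT B1
      · exact fun h => absurd h (by simp)
      · exact fun _ => By'

end Pool.Agent.H.MP_cb5d7d_al
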