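import Pool.Agent.H.MP_cb5d7d_al.E

set_option autoImplicit false

namespace Pool.Agent.H.MP_cb5d7d_al

open Filter Topology

lemma order_of_cone {Γ : Type} [Group Γ] (Pos : Γ → Prop)
    (hmul : ∀ u v, Pos u → Pos v → Pos (u * v)) (htri : ∀ u, u = 1 ∨ Pos u ∨ Pos u⁻¹)
    (hone : ¬ Pos 1) :
    ∃ (_ : LinearOrder Γ) (_ : MulLeftStrictMono Γ), ∀ u : Γ, 1 < u ↔ Pos u := by
  classical
  let r : Γ → Γ → Prop := fun u v => Pos (u⁻¹ * v)
  haveI : IsStrictTotalOrder Γ r :=
    { trichotomous := by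
        intro u v h1 h2
        rcases htri (u⁻¹ * v) with h | h | h
        · exact inv_mul_eq_one.mp h
        · exact absurd h h1
        · exact absurd (by simpa [r] using h) h2
      irrefl := fun u h => hone (by simpa [r] using h)
      trans := fun u v w h1 h2 => by simpa [r, mul_assoc] using hmul _ _ h1 h2 }
  letI lo : LinearOrder Γ := linearOrderOfSTO r
  refine ⟨lo, ⟨fun g u v h => ?_⟩, fun u => ?_⟩
  · show r (g * u) (g * v)
    have : r u v := h
    simpa [r, mul_assoc] using this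
  · show r 1 u ↔ _
    simp [r]

def Good (ψ : G → ℤ) : Prop :=
  IsPsi ψ ∧ (∀ i, 0 < ψ ((yS i)⁻¹ * yS (i + 1))) ∧ 0 < ψ g1 ∧ 0 < ψ g2 ∧ 0 < ψ g3 ∧ 0 < ψ g4

lemma good_dec {ψ : G → ℤ} (h : Good ψ) : ∃ d, ∀ g k, 0 < ψ g + 2 * k ↔ DecP d g k := by
  obtain ⟨h0, hS, p1, p2, p3, p4⟩ := h
  obtain ⟨lo, mo, hpos⟩ := order_of_cone (Γ := G × Multiplicative ℤ)
    (fun u => 0 < ψ u.1 + 2 * Multiplicative.toAdd u.2)
    (by
      rintro ⟨g, k⟩ ⟨h, l⟩ a1 a2
      have := h0.mul g h
      simp only [Prod.fst_mul, Prod.snd_mul, toAdd_mul] at *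
      omega)
    (by
      rintro ⟨g, k⟩
      by_cases hg : g = 1
      · subst hg
        rcases lt_trichotomy (Multiplicative.toAdd k) 0 with h | h | h
        · right; right; simp [h0.one]; omega
        · left; ext <;> simp; exact h
        · right; left; simp [h0.one]; omega
      · right
        have := h0.odd g hg
        simp only [Prod.fst_inv, Prod.snd_inv, toAdd_inv, h0.inv]
        omega)
    (by simp [h0.one])
  have val : ∀ (g : G) (k : ℤ), (1 : G × Multiplicative ℤ) <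
      MonoidHom.inl G (Multiplicative ℤ) g * ((1, Multiplicative.ofAdd 1) :
        G × Multiplicative ℤ) ^ k ↔ 0 < ψ g + 2 * k := by
    intro g k
    rw [hpos]
    simp
  have val0 : ∀ g : G, 0 < ψ g → (1 : G × Multiplicative ℤ) <
      MonoidHom.inl G (Multiplicative ℤ) g := by
    intro g hg
    simpa using (val g 0).2 (by simpa using hg)
  obtain ⟨d, hd⟩ := uniq (MonoidHom.inl G (Multiplicative ℤ)) (1, Multiplicative.ofAdd 1)
    (fun γ => by
      apply Prod.ext
      · simp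
      · simp [mul_comm])
    (fun γ => by
      apply Prod.ext
      · simpa using (t_central γ.1).eq
      · simp)
    (by simpa using (val 1 1).2 (by simp [h0.one]))
    ⟨|ψ z| + 1, by
      have := mul_lt_mul_right ((val z⁻¹ (|ψ z| + 1)).2 (by
        rw [h0.inv]
        have := le_abs_self (ψ z)
        have := abs_nonneg (ψ z)
        omega)) (MonoidHom.inl G (Multiplicative ℤ) z)
      rwa [mul_one, map_inv, mul_inv_cancel_left] at this⟩
    (fun i => val0 _ (hS i)) (val0 _ p1) (val0 _ p2) (val0 _ p3) (val0 _ p4)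
  refine ⟨d, fun g k => ⟨fun hp => ?_, fun hp => (val g k).1 ((hd g k).1 hp)⟩⟩
  rcases dec_or d g k with h | h
  · exact h
  · exact absurd ((val g k).2 hp) ((hd g k).2 h)

lemma good_countable : {ψ | Good ψ}.Countable := by
  have : {ψ | Good ψ} ⊆ ⋃ d : Option (ℤ × Bool),
      {ψ | IsPsi ψ ∧ ∀ g k, 0 < ψ g + 2 * k ↔ DecP d g k} := by
    intro ψ h
    obtain ⟨d, hd⟩ := good_dec h
    exact Set.mem_iUnion.2 ⟨d, h.1, hd⟩
  refine Set.Countable.mono this (Set.countable_iUnion fun d => Set.Subsingleton.countable ?_)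
  intro ψ h ψ' h'
  funext g
  exact psi_ext h.1 h'.1 g fun k => (h.2 g k).trans (h'.2 g k).symm

theorem exists_seq : ∃ (ψ0 : G → ℤ) (ψ : ℕ → G → ℤ), Good ψ0 ∧ (∀ n, IsPsi (ψ n)) ∧
    (∀ g, ∀ᶠ n in atTop, ψ n g = ψ0 g) ∧ ∀ n, dl (ψ n) ≠ dl ψ0 := by
  obtain ⟨π, πz, πS, πQ⟩ := exists_π
  let p : G → ℚ := fun g => (π g).1 0
  have ma : ∀ (u v : G) (x : ℚ), (π (u * v)).1 x = (π u).1 ((π v).1 x) := fun _ _ _ => by
    rw [map_mul]; rfl
  have pin : ∀ g (x : ℚ), (π g).1 ((π g⁻¹).1 x) = x := fun g x => by rw [← ma]; simp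
  have pS : ∀ g, p g = 0 → g ∈ S := by
    intro g hg
    rcases triG g with h | ⟨q, s, hq, hs, rfl⟩ | ⟨q, s, hq, hs, rfl⟩
    · exact h
    · have := πQ q hq
      simp only [p, ma, πS s hs] at hg
      linarith
    · have h1 := πQ q hq
      have h2 := pin q 0
      simp only [p, ma, πS s hs] at hg
      rw [hg] at h2
      linarith
  have pmul : ∀ g h (k l : ℤ), (0 < p h + l → p g + k < p (g * h) + (k + l : ℤ)) ∧
      (0 = p h + l → p g + k = p (g * h) + (k + l : ℤ)) := by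
    intro g h k l
    have e : p (g * h) + (k + l : ℤ) = (π g).1 (p h + l) + k := by
      simp only [p, ma, W_add_int]; push_cast; ring
    rw [e]
    exact ⟨fun h1 => by have := (π g).2.1 h1; simp only [p]; linarith, fun h1 => by rw [← h1]⟩
  have pinv : ∀ g (k : ℤ), (0 < p g + k ↔ p g⁻¹ + (-k : ℤ) < 0) ∧
      (0 = p g + k ↔ p g⁻¹ + (-k : ℤ) = 0) := by
    intro g k
    have e : (π g).1 (p g⁻¹ + (-k : ℤ)) = (-k : ℤ) := by
      rw [W_add_int]; simp only [p, pin]; simp
    rw [← (π g).2.1.lt_iff_lt (a := p g⁻¹ + (-k : ℤ)),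
      ← (π g).2.1.injective.eq_iff (a := p g⁻¹ + (-k : ℤ)), e]
    simp only [p]; push_cast
    constructor <;> constructor <;> intro h <;> linarith
  have prx : ∀ g, Pr yS g → ¬ Pr yS g⁻¹ := fun g h1 h2 =>
    not_Pr_one (by simpa using h1.mul h2)
  let Pos : ℤ → G → ℤ → Prop := fun N g k =>
    0 < p g + (N * k : ℤ) ∨ (0 = p g + (N * k : ℤ) ∧ (k < 0 ∨ (k = 0 ∧ Pr yS g)))
  have hmul : ∀ N g k h l, Pos N g k → Pos N h l → Pos N (g * h) (k + l) := by
    intro N g k h l a1 a2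
    have b := pmul g h (N * k) (N * l)
    simp only [Pos, mul_add] at *
    rcases a1 with a1 | ⟨a1, a3⟩ <;> rcases a2 with a2 | ⟨a2, a4⟩
    · exact Or.inl (a1.trans (b.1 a2))
    · exact Or.inl (b.2 a2 ▸ a1)
    · exact Or.inl (a1 ▸ b.1 a2)
    · refine Or.inr ⟨a1.trans (b.2 a2), ?_⟩
      rcases a3 with a3 | ⟨a3, a5⟩ <;> rcases a4 with a4 | ⟨a4, a6⟩
      · left; omega
      · left; omega
      · left; omega
      · right; exact ⟨by omega, a5.mul a6⟩
  have htri : ∀ N g k, g ≠ 1 → (Pos N g k ↔ ¬ Pos N g⁻¹ (-k)) := by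
    intro N g k hg
    have b := pinv g (N * k)
    simp only [Pos, mul_neg]
    rcases lt_trichotomy 0 (p g + (N * k : ℤ)) with h | h | h
    · have := b.1.1 h
      constructor
      · rintro - (h1 | ⟨h1, -⟩) <;> linarith
      · exact fun _ => Or.inl h
    · have h' := b.2.1 h
      rw [← h, h']
      simp only [lt_irrefl, true_and, false_or]
      rcases lt_trichotomy k 0 with hk | hk | hk
      · constructor
        · rintro - (h1 | ⟨h1, -⟩) <;> omega
        · exact fun _ => Or.inl hk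
      · subst hk
        have hs : g ∈ S := pS g (by simpa using h.symm)
        have := triS hs
        have := prx g
        simp only [lt_irrefl, neg_zero, true_and, false_or]
        tauto
      · constructor
        · rintro (h1 | ⟨h1, -⟩) <;> omega
        · intro h1; exact absurd (Or.inl (by omega)) h1
    · have : 0 < p g⁻¹ + (-(N * k) : ℤ) := by
        rcases lt_trichotomy 0 (p g⁻¹ + (-(N * k) : ℤ)) with h1 | h1 | h1
        · exact h1
        · have := b.2.2 h1.symm; linarith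
        · have := b.1.2 h1; linarith
      constructor
      · rintro (h1 | ⟨h1, -⟩) <;> linarith
      · intro h1; exact absurd (Or.inl this) h1
  have p1 : p 1 = 0 := by simp [p]
  have big : ∀ g, ∀ᶠ n : ℕ in atTop, ∀ k : ℤ, 0 < k → 0 < p g + (((n : ℤ) + 2) * k : ℤ) := by
    intro g
    obtain ⟨m, hm⟩ := exists_nat_gt (-p g)
    filter_upwards [eventually_ge_atTop m] with n hn k hk
    have h1 : (m : ℚ) ≤ n := by exact_mod_cast hn
    have h2 : (1 : ℚ) ≤ k := by exact_mod_cast hk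
    have h3 : (0 : ℚ) ≤ n := by positivity
    push_cast
    nlinarith
  have exN : ∀ n : ℕ, ∃ ψ, IsPsi ψ ∧ ∀ g k, Pos ((n : ℤ) + 2) g k ↔ 0 < ψ g + 2 * k := by
    intro n
    refine psi_of_cone _ (hmul _) (htri _) (fun k => ?_) (fun g => ?_)
    · simp only [Pos, p1, zero_add]
      constructor
      · rintro (h | ⟨h, h1 | ⟨-, h1⟩⟩)
        · have h2 : 0 < ((n : ℤ) + 2) * k := by exact_mod_cast h
          exact (mul_pos_iff_of_pos_left (by positivity)).1 h2
        · have h2 : 0 = ((n : ℤ) + 2) * k := by exact_mod_cast h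
          nlinarith
        · exact absurd h1 not_Pr_one
      · intro h
        left
        have h2 : 0 < ((n : ℤ) + 2) * k := by positivity
        exact_mod_cast h2
    · obtain ⟨m, hm⟩ := exists_nat_gt (-p g)
      refine ⟨m, Or.inl ?_⟩
      have h3 : (0 : ℚ) ≤ n := by positivity
      have h4 : (0 : ℚ) ≤ m := by positivity
      push_cast
      nlinarith
  choose ψ hψ hψ' using exN
  let PosI : G → ℤ → Prop := fun g k => 0 < k ∨ (k = 0 ∧ Pos 0 g 0)
  obtain ⟨ψ0, h0, h0'⟩ := psi_of_cone PosI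
    (by
      rintro g k h l (a1 | ⟨rfl, a1⟩) (a2 | ⟨rfl, a2⟩)
      · left; omega
      · left; omega
      · left; omega
      · right; exact ⟨rfl, hmul 0 g 0 h 0 a1 a2⟩)
    (by
      intro g k hg
      have := htri 0 g 0 hg
      simp only [PosI, neg_zero] at this ⊢
      rcases lt_trichotomy k 0 with hk | hk | hk
      · constructor
        · rintro (h1 | ⟨h1, -⟩) <;> omega
        · intro h1; exact absurd (Or.inl (by omega)) h1
      · subst hk; simpa using this
      · constructor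
        · rintro - (h1 | ⟨h1, -⟩) <;> omega
        · exact fun _ => Or.inl hk)
    (by
      intro k
      simp [PosI, Pos, p1, not_Pr_one])
    (fun g => ⟨1, Or.inl one_pos⟩)
  have pos0 : ∀ g, Pos 0 g 0 → 0 < ψ0 g := fun g h => by
    simpa using (h0' g 0).1 (Or.inr ⟨rfl, h⟩)
  have pq : ∀ q, PQ q → 0 < ψ0 q := fun q h => pos0 q (Or.inl (by simpa using πQ q h))
  refine ⟨ψ0, ψ, ⟨h0, fun i => pos0 _ (Or.inr ⟨?_, Or.inr ⟨rfl, Pr.gap i⟩⟩), pq _ PQ.p1,
    pq _ PQ.p2, pq _ PQ.p3, pq _ PQ.p4⟩, hψ, fun g => ?_, fun n hn => ?_⟩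
  · rw [mul_zero, Int.cast_zero, add_zero]
    exact (πS _ (Pr_S (Pr.gap i))).symm
  · filter_upwards [big g, big g⁻¹] with n b1 b2
    by_cases hg : g = 1
    · subst hg; rw [(hψ n).one, h0.one]
    refine psi_ext (hψ n) h0 g fun k => ?_
    rw [← hψ', ← h0']
    rcases lt_trichotomy k 0 with hk | hk | hk
    · rw [htri _ _ _ hg]
      constructor
      · intro h; exact absurd (Or.inl (b2 (-k) (by omega))) h
      · rintro (h1 | ⟨h1, -⟩) <;> omega
    · subst hk; simp [PosI, Pos]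
    · exact ⟨fun _ => Or.inl hk, fun _ => Or.inl (b1 k hk)⟩
  · have pz : ∀ j : ℤ, p (z ^ j) = j := fun j => by
      simp only [p, map_zpow, πz, tr_zpow, zero_add]
    have v0 : ∀ j : ℤ, 0 < j → ψ0 (z ^ j) = 1 := by
      intro j hj
      have a1 := pos0 (z ^ j) (Or.inl (by rw [pz]; simpa using hj))
      have a2 := (h0' (z ^ j) (-1)).not.1 (by simp [PosI])
      have a3 := h0.odd (z ^ j) (by intro h; rw [h, h0.one] at a1; omega)
      omega
    have v1 : ∀ j : ℤ, 0 < j → j < n + 2 → ψ n (z ^ j) ≤ 2 := by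
      intro j hj hj'
      have a2 := (hψ' n (z ^ j) (-1)).not.1 (by
        have : (j : ℚ) < n + 2 := by exact_mod_cast hj'
        simp only [Pos, pz]
        push_cast
        rintro (h | ⟨h, -⟩) <;> linarith)
      omega
    have v2 : 2 < ψ n (z ^ ((n : ℤ) + 2)) := by
      have a2 := (hψ' n (z ^ ((n : ℤ) + 2)) (-1)).1 (Or.inr ⟨by rw [pz]; push_cast; ring,
        Or.inl (by norm_num)⟩)
      omega
    have e := congrFun (congrFun (congrFun hn 1) (z ^ (1 : ℤ))) (z ^ ((n : ℤ) + 2))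
    have e2 : (z ^ (1 : ℤ))⁻¹ * z ^ ((n : ℤ) + 2) = z ^ ((n : ℤ) + 1) := by group
    simp only [dl, inv_one, one_mul, e2] at e
    rw [v0 _ one_pos, v0 _ (by positivity), v0 _ (by positivity)] at e
    have b1 := v1 1 one_pos (by omega)
    have b2 := v1 (n + 1) (by positivity) (by omega)
    have nz : ∀ j : ℤ, 0 < j → z ^ j ≠ 1 := fun j hj h => by
      have := v0 j hj
      rw [h, h0.one] at this; omega
    have o1 := (hψ n).odd _ (nz 1 one_pos)
    have o2 := (hψ n).odd _ (nz (n + 1) (by positivity))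
    omega

lemma CO_closed : IsClosed (CO G) := by
  have e : CO G = (⋂ a, ⋂ b, ⋂ d, (fun c : G → G → G → ℤ => c a b d) ⁻¹'
        {v | (v = 0 ∨ v = 1 ∨ v = -1) ∧ (v = 0 ↔ (a = b ∨ b = d ∨ a = d))}) ∩
      ((⋂ g₁, ⋂ g₂, ⋂ g₃, ⋂ g₄, {c : G → G → G → ℤ |
        c g₂ g₃ g₄ - c g₁ g₃ g₄ + c g₁ g₂ g₄ - c g₁ g₂ g₃ = 0}) ∩
      (⋂ g, ⋂ a, ⋂ b, ⋂ d, {c : G → G → G → ℤ | c (g * a) (g * b) (g * d) = c a b d})) := by
    ext c
    simp only [CO, Set.mem_ofPred_eq, Set.mem_inter_iff, Set.mem_iInter, Set.mem_preimage,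
      forall_and, and_assoc]
  rw [e]
  refine IsClosed.inter ?_ (IsClosed.inter ?_ ?_)
  · refine isClosed_iInter fun a => isClosed_iInter fun b => isClosed_iInter fun d => ?_
    exact (isClosed_discrete _).preimage (by fun_prop)
  · refine isClosed_iInter fun _ => isClosed_iInter fun _ => isClosed_iInter fun _ =>
      isClosed_iInter fun _ => isClosed_eq (by fun_prop) (by fun_prop)
  · refine isClosed_iInter fun _ => isClosed_iInter fun _ => isClosed_iInter fun _ =>
      isClosed_iInter fun _ => isClosed_eq (by fun_prop) (by fun_prop)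

lemma cantor_nhds (x : ℕ → Bool) (V : Set (ℕ → Bool)) (hV : V ∈ 𝓝 x) : ¬ V.Countable := by
  intro hc
  rw [nhds_pi, Filter.mem_pi] at hV
  obtain ⟨I, hI, s, hs, hsub⟩ := hV
  obtain ⟨n, hn⟩ := hI.bddAbove
  let f : (ℕ → Bool) → (ℕ → Bool) := fun w i => if i ≤ n then x i else w (i - (n + 1))
  have hf : Function.Injective f := by
    intro w w' h
    funext i
    have := congrFun h (i + (n + 1))
    simpa [f, show ¬ i + (n + 1) ≤ n by omega] using this
  have hm : ∀ w, f w ∈ V := fun w => hsub fun i hi => by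
    simp only [f, if_pos (hn hi)]
    exact mem_of_mem_nhds (hs i)
  have : (Set.univ : Set (ℕ → Bool)).Countable :=
    (hc.preimage_of_injOn (f := f) hf.injOn).mono fun w _ => hm w
  have hcount : Countable (ℕ → Bool) := Set.countable_univ_iff.mp this
  obtain ⟨e, he⟩ := exists_surjective_nat (ℕ → Bool)
  obtain ⟨m, hm⟩ := he fun i => !(e i i)
  have := congrFun hm m
  simp at this

theorem main : (derivedSet (CO G)).Nonempty ∧
    ¬ Nonempty ((derivedSet (CO G)) ≃ₜ (ℕ → Bool)) := by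
  obtain ⟨ψ0, ψ, good, hψ, hlim, hne⟩ := exists_seq
  have hacc : dl ψ0 ∈ derivedSet (CO G) := by
    rw [mem_derivedSet, accPt_iff_frequently]
    have ht : Tendsto (fun n => dl (ψ n)) atTop (𝓝 (dl ψ0)) := by
      simp only [tendsto_pi_nhds]
      intro u v w
      refine tendsto_const_nhds.congr' ?_
      filter_upwards [hlim (u⁻¹ * v), hlim (v⁻¹ * w), hlim (u⁻¹ * w)] with n h1 h2 h3
      simp only [dl, h1, h2, h3]
    exact ht.frequently (Frequently.of_forall fun n => ⟨hne n, dl_mem (hψ n)⟩)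
  refine ⟨⟨_, hacc⟩, fun ⟨e⟩ => ?_⟩
  obtain ⟨F, hF, hloc⟩ := local_psi good.1
  have hV : ∀ᶠ c in 𝓝 (dl ψ0), c ∈ CO G → Good (F c) := by
    have h9 : ∀ᶠ c in 𝓝 (dl ψ0), ∀ i ∈ Finset.Ico (0 : ℤ) 9, c ∈ CO G →
        F c ((yS i)⁻¹ * yS (i + 1)) = ψ0 ((yS i)⁻¹ * yS (i + 1)) :=
      (Finset.eventually_all _).2 fun i _ => hloc _
    filter_upwards [h9, hloc g1, hloc g2, hloc g3, hloc g4] with c a0 a1 a2 a3 a4 hc
    refine ⟨(hF c hc).1, fun i => ?_, a1 hc ▸ good.2.2.1, a2 hc ▸ good.2.2.2.1,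
      a3 hc ▸ good.2.2.2.2.1, a4 hc ▸ good.2.2.2.2.2⟩
    rw [gap_periodic yS_add, a0 _ (by rw [Finset.mem_Ico]; omega) hc]
    exact good.2.1 _
  have hsub : derivedSet (CO G) ⊆ CO G := by
    have := derivedSet_subset_closure (CO G)
    rwa [CO_closed.closure_eq] at this
  let V : Set (derivedSet (CO G)) := Subtype.val ⁻¹' {c | c ∈ CO G → Good (F c)}
  have hV1 : V ∈ 𝓝 (⟨_, hacc⟩ : derivedSet (CO G)) :=
    continuous_subtype_val.continuousAt.preimage_mem_nhds hV
  have hV2 : V.Countable := by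
    have h1 : (dl '' {ψ | Good ψ}).Countable := good_countable.image _
    refine (h1.preimage_of_injOn (f := Subtype.val) Subtype.val_injective.injOn).mono ?_
    intro c hc
    exact ⟨F c, hc (hsub c.2), (hF c (hsub c.2)).2⟩
  exact cantor_nhds (e ⟨_, hacc⟩) (e '' V) (e.isOpenMap.image_mem_nhds hV1) (hV2.image _)

end Pool.Agent.H.MP_cb5d7d_al
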